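import Pool.Agent.U120.BR.Gr
import Pool.Agent.U707.SHA.Ram

/-!
# Bounded kernels: the structure theorem
-/

set_option autoImplicit false

open scoped Classical

namespace Pool.Agent.U120.BR

open Finset

variable {n : ℕ → ℕ → ZMod 2} {θ : ℕ → ZMod 2} {T : Set ℕ}

/-- Ramsey -/
lemma homog (hn : Sy n T) {S : Set ℕ} (hST : S ⊆ T) (hS : S.Infinite) :
    ∃ (S' : Set ℕ) (c : ZMod 2), S' ⊆ S ∧ S'.Infinite ∧ ∀ p ∈ S', ∀ q ∈ S', p ≠ q → n p q = c := by
  obtain ⟨S', h1, h2, h3⟩ := Pool.Agent.U707.SHA.hom_inf (H := fun _ => True) (nr := n)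
    (col := fun _ => ()) (P := ∅) S hS (fun _ _ _ _ _ => Iff.rfl)
    (fun p hp q hq _ _ => hn.2 p (hST hp) q (hST hq))
  obtain ⟨x, hx⟩ := h2.nonempty
  obtain ⟨y, hy, hxy⟩ := h2.exists_notMem_finset {x}
  have hxy' : x ≠ y := fun e => hxy (by rw [e]; simp)
  refine ⟨S', n x y, h1, h2, fun p hp q hq hpq => ?_⟩
  have hA : ((({p, q, x, y} : Finset ℕ)) : Set ℕ) ⊆ S' := by
    intro z hz
    simp only [Finset.coe_insert, Finset.coe_singleton, Set.mem_insert_iff,
      Set.mem_singleton_iff] at hz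
    rcases hz with rfl | rfl | rfl | rfl
    · exact hp
    · exact hq
    · exact hx
    · exact hy
  exact (h3 _ hA).pr (fun _ _ => trivial) p (by simp) q (by simp) x (by simp) y (by simp) hpq hxy'

/-- slow growth: for some `m` no set of at most `3 m` elements has a kernel of `2 ^ m` elements -/
def Gp (n : ℕ → ℕ → ZMod 2) (θ : ℕ → ZMod 2) (T : Set ℕ) : Prop :=
  ∃ m : ℕ, ∀ P : Finset ℕ, (P : Set ℕ) ⊆ T → P.card ≤ 3 * m → kq n θ P < 2 ^ m

/-- a clique of `m + 1` or `m + 2` elements of an infinite set of vertices -/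
lemma par_card (t : ZMod 2) (m : ℕ) (hm : m ≠ 0) :
    ∃ k : ℕ, t + (k : ZMod 2) = 0 ∧ m ≤ k - 1 ∧ k ≤ 3 * m := by
  rcases z2 (t + ((m + 1 : ℕ) : ZMod 2)) with h | h
  · exact ⟨m + 1, h, by omega, by omega⟩
  · refine ⟨m + 2, ?_, by omega, by omega⟩
    have e : t + ((m + 2 : ℕ) : ZMod 2) = (t + ((m + 1 : ℕ) : ZMod 2)) + 1 := by
      push_cast
      ring
    rw [e, h]
    decide

/-- finitely many labels `0` -/
lemma zero_fin (hn : Sy n T) (hB : Gp n θ T) : {p | p ∈ T ∧ θ p = 0}.Finite := by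
  by_contra hinf
  obtain ⟨m, hC⟩ := hB
  have hm : m ≠ 0 := by
    rintro rfl
    have := hC ∅ (by simp) (by simp)
    rw [pow_zero] at this
    have := kq_pos (n := n) (θ := θ) ∅
    omega
  obtain ⟨S, c, h1, h2, h3⟩ := homog hn (S := {p | p ∈ T ∧ θ p = 0}) (fun p hp => hp.1) hinf
  have hθ : ∀ p ∈ S, θ p = 0 := fun p hp => (h1 hp).2
  rcases z2 c with rfl | rfl
  · obtain ⟨P, hP, hc⟩ := h2.exists_subset_card_eq m
    have g1 := indep_zero (n := n) (θ := θ) (P := P) (fun p hp => hθ p (hP (Finset.mem_coe.2 hp)))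
      fun p hp q hq => h3 p (hP (Finset.mem_coe.2 hp)) q (hP (Finset.mem_coe.2 hq))
    have g2 := hC P (fun p hp => (h1 (hP hp)).1) (by omega)
    rw [hc] at g1
    omega
  · obtain ⟨k, hk, hk1, hk2⟩ := par_card 0 m hm
    obtain ⟨P, hP, hc⟩ := h2.exists_subset_card_eq k
    have g1 := clique_many (n := n) (θ := θ) (P := P) (t := 0)
      (fun p hp => hθ p (hP (Finset.mem_coe.2 hp)))
      (fun p hp q hq => h3 p (hP (Finset.mem_coe.2 hp)) q (hP (Finset.mem_coe.2 hq)))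
      (by rw [hc]; exact hk)
    have g2 := hC P (fun p hp => (h1 (hP hp)).1) (by omega)
    rw [hc] at g1
    have g3 : 2 ^ m ≤ 2 ^ (k - 1) := Nat.pow_le_pow_right (by norm_num) hk1
    omega

/-- finite degrees -/
lemma deg_fin (hn : Sy n T) (hB : Gp n θ T) {c : ℕ} (hc : c ∈ T) : {q | q ∈ T ∧ n c q = 1}.Finite := by
  by_contra hinf
  have h0 := zero_fin hn hB
  have hinf' : ({q | q ∈ T ∧ n c q = 1} \ {p | p ∈ T ∧ θ p = 0}).Infinite :=
    Set.Infinite.diff hinf h0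
  obtain ⟨m, hC⟩ := hB
  have hm : m ≠ 0 := by
    rintro rfl
    have := hC ∅ (by simp) (by simp)
    rw [pow_zero] at this
    have := kq_pos (n := n) (θ := θ) ∅
    omega
  obtain ⟨S, t, h1, h2, h3⟩ := homog hn (S := {q | q ∈ T ∧ n c q = 1} \ {p | p ∈ T ∧ θ p = 0})
    (fun p hp => hp.1.1) hinf'
  have hθ : ∀ p ∈ S, θ p = 1 := fun p hp => (z2 _).resolve_left fun h => (h1 hp).2 ⟨(h1 hp).1.1, h⟩
  have hcS : c ∉ S := fun h => by
    have g := (h1 h).1.2
    rw [hn.1 c hc] at g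
    exact zero_ne_one g
  rcases z2 t with rfl | rfl
  · obtain ⟨L, hL, hLc⟩ := h2.exists_subset_card_eq (m + 1)
    have g1 := star_many (n := n) (θ := θ) (L := L) (c := c) (fun h => hcS (hL (Finset.mem_coe.2 h)))
      (fun p hp => hθ p (hL (Finset.mem_coe.2 hp)))
      (fun p hp q hq => h3 p (hL (Finset.mem_coe.2 hp)) q (hL (Finset.mem_coe.2 hq)))
      (fun p hp => (h1 (hL (Finset.mem_coe.2 hp))).1.2)
      (fun p hp => by
        rw [hn.2 p (h1 (hL (Finset.mem_coe.2 hp))).1.1 c hc]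
        exact (h1 (hL (Finset.mem_coe.2 hp))).1.2)
    have g2 := hC (insert c L) (fun p hp => by
      rw [Finset.coe_insert] at hp
      rcases Set.mem_insert_iff.1 hp with rfl | hp
      · exact hc
      · exact (h1 (hL hp)).1.1) (by
        have := Finset.card_insert_le c L
        omega)
    rw [hLc, Nat.add_sub_cancel] at g1
    omega
  · obtain ⟨k, hk, hk1, hk2⟩ := par_card 1 m hm
    obtain ⟨P, hP, hPc⟩ := h2.exists_subset_card_eq k
    have g1 := clique_many (n := n) (θ := θ) (P := P) (t := 1)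
      (fun p hp => hθ p (hP (Finset.mem_coe.2 hp)))
      (fun p hp q hq => h3 p (hP (Finset.mem_coe.2 hp)) q (hP (Finset.mem_coe.2 hq)))
      (by rw [hPc]; exact hk)
    have g2 := hC P (fun p hp => (h1 (hP hp)).1.1) (by omega)
    rw [hPc] at g1
    have g3 : 2 ^ m ≤ 2 ^ (k - 1) := Nat.pow_le_pow_right (by norm_num) hk1
    omega

/-- the neighbours of a finite set -/
lemma nb_fin (hn : Sy n T) (hB : Gp n θ T) (X : Finset ℕ) :
    {q | q ∈ T ∧ ∃ x ∈ X, x ∈ T ∧ n x q = 1}.Finite := by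
  have h : {q | q ∈ T ∧ ∃ x ∈ X, x ∈ T ∧ n x q = 1} ⊆
      ⋃ x ∈ {x ∈ X | x ∈ T}, {q | q ∈ T ∧ n x q = 1} := by
    rintro q ⟨hq, x, hx, hxT, h1⟩
    rw [Set.mem_iUnion₂]
    exact ⟨x, Finset.mem_filter.2 ⟨hx, hxT⟩, hq, h1⟩
  refine Set.Finite.subset ?_ h
  refine Set.Finite.biUnion (Finset.finite_toSet _) fun x hx => ?_
  exact deg_fin hn hB (Finset.mem_filter.1 (Finset.mem_coe.1 hx)).2

/-- if no finite set leaves a matching, then the kernels are unbounded -/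
lemma grow (hn : Sy n T) (hB : Gp n θ T)
    (hno : ∀ F : Finset ℕ, (F : Set ℕ) ⊆ T → ¬ Ma n θ (T \ F)) :
    ∀ m : ℕ, ∃ P : Finset ℕ, (P : Set ℕ) ⊆ T ∧ P.card ≤ 3 * m ∧ 2 ^ m ≤ kq n θ P := by
  intro m
  induction m with
  | zero => exact ⟨∅, by simp, by simp, by rw [pow_zero]; exact kq_pos ∅⟩
  | succ m ih =>
    obtain ⟨P, hP, hPc, hk⟩ := ih
    have h0 := zero_fin hn hB
    have h1 := nb_fin hn hB P
    set F : Finset ℕ := h0.toFinset ∪ (P ∪ h1.toFinset) with hF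
    have hFT : (F : Set ℕ) ⊆ T := by
      intro q hq
      rcases Finset.mem_union.1 (Finset.mem_coe.1 hq) with h | h
      · exact (h0.mem_toFinset.1 h).1
      · rcases Finset.mem_union.1 h with h | h
        · exact hP (Finset.mem_coe.2 h)
        · exact (h1.mem_toFinset.1 h).1
    have hθ : ∀ p ∈ T \ (F : Set ℕ), θ p = 1 := fun p hp => (z2 _).resolve_left fun h =>
      hp.2 (Finset.mem_coe.2 (Finset.mem_union_left _ (h0.mem_toFinset.2 ⟨hp.1, h⟩)))
    have h2 := hno F hFT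
    unfold Ma at h2
    push Not at h2
    obtain ⟨p, hp, q, hq, r, hr, hpq, hpr, hqr⟩ := h2 hθ
    have hnew : ∀ x ∈ ({p, q, r} : Finset ℕ), x ∈ T \ (F : Set ℕ) := by
      intro x hx
      rcases Finset.mem_insert.1 hx with rfl | hx
      · exact hp
      · rcases Finset.mem_insert.1 hx with rfl | hx
        · exact hq
        · rw [Finset.mem_singleton.1 hx]
          exact hr
    have hno1 : ∀ x ∈ P, ∀ y ∈ ({p, q, r} : Finset ℕ), n x y = 0 := by
      intro x hx y hy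
      refine (z2 _).resolve_right fun h => ?_
      have hy' := hnew y hy
      exact hy'.2 (Finset.mem_coe.2 (Finset.mem_union_right _ (Finset.mem_union_right _
        (h1.mem_toFinset.2 ⟨hy'.1, x, hx, hP (Finset.mem_coe.2 hx), h⟩))))
    refine ⟨P ∪ {p, q, r}, ?_, ?_, ?_⟩
    · intro x hx
      rcases Finset.mem_union.1 (Finset.mem_coe.1 hx) with h | h
      · exact hP (Finset.mem_coe.2 h)
      · exact (hnew x h).1
    · have g1 := Finset.card_union_le P {p, q, r}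
      have g2 : ({p, q, r} : Finset ℕ).card ≤ 3 := Finset.card_le_three
      omega
    · rw [kq_union (by
        rw [Finset.disjoint_left]
        intro x hx hy
        exact (hnew x hy).2 (Finset.mem_coe.2 (Finset.mem_union_right _
          (Finset.mem_union_left _ hx)))) hno1 (by
        intro x hx y hy
        rw [hn.2 x (hnew x hx).1 y (hP (Finset.mem_coe.2 hy))]
        exact hno1 y hy x hx), pow_succ]
      exact Nat.mul_le_mul hk (triple_two hn hp.1 hq.1 hr.1 (hθ q hq) (hθ r hr) hpq hpr hqr)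

/-- **the structure theorem** -/
theorem fm_of_gp (hn : Sy n T) (hB : Gp n θ T) : ∃ F : Finset ℕ, Fm n θ T F := by
  obtain ⟨F, hFT, hFm⟩ : ∃ F : Finset ℕ, (F : Set ℕ) ⊆ T ∧ Ma n θ (T \ F) := by
    by_contra hno
    push Not at hno
    obtain ⟨m, hC⟩ := hB
    obtain ⟨P, hP, hPc, h⟩ := grow hn ⟨m, hC⟩ hno m
    have h1 := hC P hP hPc
    omega
  have f1 := nb_fin hn hB F
  have f2 := nb_fin hn hB f1.toFinset
  have m1 : ∀ q, q ∈ f1.toFinset ↔ q ∈ T ∧ ∃ x ∈ F, x ∈ T ∧ n x q = 1 := fun q =>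
    f1.mem_toFinset
  have m2 : ∀ q, q ∈ f2.toFinset ↔ q ∈ T ∧ ∃ x ∈ f1.toFinset, x ∈ T ∧ n x q = 1 := fun q =>
    f2.mem_toFinset
  refine ⟨F ∪ (f1.toFinset ∪ f2.toFinset), ?_, ?_, ?_⟩
  · intro q hq
    rcases Finset.mem_union.1 (Finset.mem_coe.1 hq) with h | h
    · exact hFT (Finset.mem_coe.2 h)
    · rcases Finset.mem_union.1 h with h | h
      · exact ((m1 q).1 h).1
      · exact ((m2 q).1 h).1
  · have hsub : T \ ((F ∪ (f1.toFinset ∪ f2.toFinset) : Finset ℕ) : Set ℕ) ⊆ T \ (F : Set ℕ) :=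
      fun q hq => ⟨hq.1, fun h => hq.2 (Finset.mem_coe.2
        (Finset.mem_union_left _ (Finset.mem_coe.1 h)))⟩
    exact hFm.mono hsub
  · intro p hp q hq
    have hqF : q ∉ F := fun h => hq.2 (Finset.mem_coe.2 (Finset.mem_union_left _ h))
    have hq1 : q ∉ f1.toFinset := fun h => hq.2 (Finset.mem_coe.2 (Finset.mem_union_right _
      (Finset.mem_union_left _ h)))
    have hq2 : q ∉ f2.toFinset := fun h => hq.2 (Finset.mem_coe.2 (Finset.mem_union_right _
      (Finset.mem_union_right _ h)))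
    refine (z2 _).resolve_right fun h => ?_
    rcases Finset.mem_union.1 hp with hp | hp
    · exact hq1 ((m1 q).2 ⟨hq.1, p, hp, hFT (Finset.mem_coe.2 hp), h⟩)
    by_cases hpF : p ∈ F
    · exact hq1 ((m1 q).2 ⟨hq.1, p, hpF, hFT (Finset.mem_coe.2 hpF), h⟩)
    by_cases hp1 : p ∈ f1.toFinset
    · exact hq2 ((m2 q).2 ⟨hq.1, p, hp1, ((m1 p).1 hp1).1, h⟩)
    have hp2 : p ∈ f2.toFinset := (Finset.mem_union.1 hp).resolve_left hp1
    obtain ⟨hpT, v, hv, hvT, hvp⟩ := (m2 p).1 hp2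
    have hvF : v ∉ F := fun h3 => hp1 ((m1 p).2 ⟨hpT, v, h3, hvT, hvp⟩)
    have h4 := hFm.2 p ⟨hpT, fun h3 => hpF (Finset.mem_coe.1 h3)⟩ v
      ⟨hvT, fun h3 => hvF (Finset.mem_coe.1 h3)⟩ q ⟨hq.1, fun h3 => hqF (Finset.mem_coe.1 h3)⟩
      (by rw [hn.2 p hpT v hvT]; exact hvp) h
    rw [h4] at hv
    exact hq1 hv

/-- the bound given by the structure -/
theorem fm_le (hn : Sy n T) {F : Finset ℕ} (hF : Fm n θ T F) {P : Finset ℕ} (hP : (P : Set ℕ) ⊆ T) :
    kq n θ P ≤ 2 ^ F.card := by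
  rw [kq_fm hn hF hP]
  refine (kq_le _).trans (Nat.pow_le_pow_right (by norm_num) ?_)
  exact Finset.card_le_card Finset.inter_subset_right

theorem bdd_iff (hn : Sy n T) : Bd n θ T ↔ ∃ F : Finset ℕ, Fm n θ T F := by
  constructor
  · rintro ⟨C, hC⟩
    refine fm_of_gp hn ⟨C, fun P hP _ => ?_⟩
    exact (hC P hP).trans_lt Nat.lt_two_pow_self
  · rintro ⟨F, hF⟩
    exact ⟨2 ^ F.card, fun P hP => fm_le hn hF hP⟩

/-- **the gap theorem** -/
theorem gap_iff (hn : Sy n T) : Gp n θ T ↔ ∃ F : Finset ℕ, Fm n θ T F := by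
  constructor
  · exact fm_of_gp hn
  · rintro ⟨F, hF⟩
    refine ⟨F.card + 1, fun P hP _ => (fm_le hn hF hP).trans_lt ?_⟩
    exact Nat.pow_lt_pow_right (by norm_num) (by omega)

end Pool.Agent.U120.BR
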