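import Pool.Agent.U120.BR.Gf
import Pool.Agent.U120.MF.Fld
import Pool.Agent.U707.SHA.Fld

/-!
# Number fields generated by square roots of the primes of a set
-/

set_option autoImplicit false
set_option linter.unusedSectionVars false
set_option linter.style.haveILetI false

open scoped Classical

namespace Pool.Agent.U120.BR

open Finset
open Pool.Agent.U115.GE
open Pool.Agent.TH841.NF.D (rk Sha)
open Pool.Agent.Y682 (wc)
open Pool.Agent.Y698.SG (nq)
open Pool.Agent.U707.SHA (sqf_unique)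
open Pool.Agent.U120.MF (KT sub_KT)

variable {a b : ℤ}

/-- the product of products, up to squares -/
theorem sym_prod {T : Set ℕ} (h0 : ∀ q ∈ T, q ≠ 0) {n : ℕ} (S : Fin n → Finset ℕ)
    (hS : ∀ i, (S i : Set ℕ) ⊆ T) (I : Finset (Fin n)) :
    ∃ (V : Finset ℕ) (k : ℕ), (V : Set ℕ) ⊆ T ∧ k ≠ 0 ∧
      ∏ i ∈ I, ∏ q ∈ S i, q = (∏ q ∈ V, q) * k ^ 2 := by
  induction I using Finset.induction_on with
  | empty => exact ⟨∅, 1, by simp, one_ne_zero, by simp⟩
  | insert a I ha ih =>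
    obtain ⟨V, k, hV, hk, h⟩ := ih
    refine ⟨(S a \ V) ∪ (V \ S a), k * ∏ q ∈ S a ∩ V, q, ?_, ?_, ?_⟩
    · intro q hq
      rcases Finset.mem_union.1 (mem_coe.1 hq) with h1 | h1
      · exact hS a (mem_coe.2 (Finset.mem_sdiff.1 h1).1)
      · exact hV (mem_coe.2 (Finset.mem_sdiff.1 h1).1)
    · exact mul_ne_zero hk (Finset.prod_ne_zero_iff.2 fun q hq =>
        h0 q (hV (mem_coe.2 (Finset.mem_inter.1 hq).2)))
    · have e1 : ∏ q ∈ S a, q = (∏ q ∈ S a \ V, q) * ∏ q ∈ S a ∩ V, q := by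
        rw [← Finset.prod_union (Finset.disjoint_sdiff_inter _ _), Finset.sdiff_union_inter]
      have e2 : ∏ q ∈ V, q = (∏ q ∈ V \ S a, q) * ∏ q ∈ S a ∩ V, q := by
        rw [Finset.inter_comm, ← Finset.prod_union (Finset.disjoint_sdiff_inter _ _),
          Finset.sdiff_union_inter]
      rw [Finset.prod_insert ha, Finset.prod_union (by
        rw [Finset.disjoint_left]
        intro x hx hy
        exact (Finset.mem_sdiff.1 hx).2 (Finset.mem_sdiff.1 hy).1), h, e1, e2]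
      ring

lemma prod_sqf {V : Finset ℕ} (h : ∀ q ∈ V, q.Prime) : Squarefree (∏ q ∈ V, q) := by
  refine Finset.squarefree_prod_of_pairwise_isCoprime (fun p hp q hq hpq => ?_)
    fun p hp => (h p hp).squarefree
  show IsRelPrime p q
  rw [← Nat.coprime_iff_isRelPrime]
  exact (Nat.coprime_primes (h p hp) (h q hq)).mpr hpq

/-- the members of the family -/
theorem member {T : Set ℕ} (h0 : ∀ q ∈ T, q.Prime) {n : ℕ} {S : Fin n → Finset ℕ}
    (hS : ∀ i, (S i : Set ℕ) ⊆ T) {I : Finset (Fin n)} {N g : ℕ}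
    (hN : Squarefree N) (h : N * g ^ 2 = 1 * ∏ i ∈ I, ∏ q ∈ S i, q) :
    ∃ V : Finset ℕ, (V : Set ℕ) ⊆ T ∧ N = ∏ q ∈ V, q := by
  obtain ⟨V, k, hV, hk, h1⟩ := sym_prod (fun q hq => (h0 q hq).ne_zero) S hS I
  refine ⟨V, hV, sqf_unique (g := g) (k := k) (prod_sqf fun q hq => h0 q (hV (mem_coe.2 hq))) hN
    hk ?_⟩
  rw [h, h1, one_mul]

lemma adj_top {K : Type} [Field K] (A B : Algebra ℚ K) (s : Set K)
    (h : @IntermediateField.adjoin ℚ _ K _ A s = ⊤) : @IntermediateField.adjoin ℚ _ K _ B s = ⊤ := by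
  obtain rfl := Subsingleton.elim A B
  exact h

lemma fin_rank {K : Type} [Field K] (A B : Algebra ℚ K) :
    @Module.finrank ℚ K _ _ A.toModule = @Module.finrank ℚ K _ _ B.toModule := by
  obtain rfl := Subsingleton.elim A B
  rfl

/-- the generators of a number field inside the field of the square roots -/
theorem gens {T : Set ℕ} (K : IntermediateField ℚ ℂ) (hK : K ≤ KT T) [NumberField K] :
    ∃ (n : ℕ) (S : Fin n → Finset ℕ) (r : Fin n → K), (∀ i, (S i : Set ℕ) ⊆ T) ∧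
      (∀ i, r i ^ 2 = ((∏ q ∈ S i, q : ℕ) : K)) ∧
      @IntermediateField.adjoin ℚ _ K _ DivisionRing.toRatAlgebra (Set.range r) = ⊤ ∧
      Module.finrank ℚ K = 2 ^ n := by
  have hfd : FiniteDimensional ℚ K := by
    have h := NumberField.to_finiteDimensional (K := K)
    convert h
  obtain ⟨P, hP1, hP2⟩ := sub_KT K hK
  obtain ⟨n, S, r, hS, -, hr, hgen, hdeg⟩ := Pool.Agent.U80.MQ.exists_gens K hP2
  exact ⟨n, S, r, fun i q hq => hP1 (hS i (mem_coe.1 hq)), hr, adj_top _ _ _ hgen, hdeg⟩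

lemma wc_one (K : Type) [Field K] : wc ((a : K) * ((1 : ℕ) : K)) ((b : K) * ((1 : ℕ) : K) ^ 2) =
    wc (a : K) (b : K) := by
  rw [Nat.cast_one, mul_one, one_pow, mul_one]

/-- **the rank over the fields** -/
theorem fld_rank (hb : b ≠ 0) (hc : a ^ 2 - 4 * b ≠ 0) {T : Set ℕ} (h0 : ∀ q ∈ T, q.Prime) {ρ : ℕ}
    (h : ∀ V : Finset ℕ, (V : Set ℕ) ⊆ T → rk (twE a b (∏ q ∈ V, q)) ≤ ρ)
    (K : IntermediateField ℚ ℂ) (hK : K ≤ KT T) [NumberField K] :
    rk (wc (a : K) (b : K)) ≤ Module.finrank ℚ K * ρ := by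
  obtain ⟨n, S, r, hS, hr, hgen, hdeg⟩ := gens K hK
  have h1 := Pool.Agent.U747.GE.t_MQR a b 1 n (fun i => ∏ q ∈ S i, q) hb hc one_ne_zero
    (fun i => prod_ne_zero_iff.2 fun q hq => (h0 q (hS i (mem_coe.2 hq))).ne_zero) (fun _ => ρ)
    (fun I N g hN hNg => by
      obtain ⟨V, hV, rfl⟩ := member h0 hS hN hNg
      exact h V hV) K r hr hgen
  rw [sum_const, card_univ, Fintype.card_finset, Fintype.card_fin, smul_eq_mul, wc_one] at h1
  rw [hdeg]
  exact h1

/-- **finitely many points and `Ш[2^∞]` over the fields** -/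
theorem fld_tt (hb : b ≠ 0) (hc : a ^ 2 - 4 * b ≠ 0) {T : Set ℕ} (h0 : ∀ q ∈ T, q.Prime)
    (h : ∀ V : Finset ℕ, (V : Set ℕ) ⊆ T → Finite (twE a b (∏ q ∈ V, q)).toAffine.Point ∧
      ∀ x : Sha (twE a b (∏ q ∈ V, q)), 2 • x = 0 → x = 0)
    (K : IntermediateField ℚ ℂ) (hK : K ≤ KT T) [NumberField K] :
    Finite (wc (a : K) (b : K)).toAffine.Point ∧
      ∀ (k : ℕ) (x : Sha (wc (a : K) (b : K))), 2 ^ k • x = 0 → Module.finrank ℚ K • x = 0 := by
  obtain ⟨n, S, r, hS, hr, hgen, hdeg⟩ := gens K hK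
  have h1 := Pool.Agent.U747.GE.t_MQF a b 1 n (fun i => ∏ q ∈ S i, q) hb hc one_ne_zero
    (fun i => prod_ne_zero_iff.2 fun q hq => (h0 q (hS i (mem_coe.2 hq))).ne_zero)
    (fun I N g hN hNg => by
      obtain ⟨V, hV, rfl⟩ := member h0 hS hN hNg
      exact h V hV) K r hr hgen
  rw [wc_one] at h1
  rw [hdeg]
  exact h1

end Pool.Agent.U120.BR
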