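import Pool.Agent.U120.BR.Bd
import Pool.Agent.U115.GE.Conv2
import Pool.Agent.U739.GE.GOOD
import Pool.Agent.U796.GE.BND
import Pool.Agent.U707.SHA.Main

/-!
# The Selmer groups of the twists by products of split primes
-/

set_option autoImplicit false
set_option linter.style.haveILetI false
set_option linter.unusedSectionVars false

attribute [-instance] DivisionRing.toRatAlgebra

open scoped Classical

namespace Pool.Agent.U120.BR

open Finset
open Pool.Agent.U115.GE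
open Pool.Agent.Y698.SG (nq nq_prod nq_zero)
open Pool.Agent.U707.SHA (nq_self nq_symm)
open Pool.Agent.TH841.NF.D (rk Sha)

/-- `M = 1`, or a product of different inert primes in the residue classes of `Res` -/
def Cos (a b : ℤ) (M : ℕ) : Prop :=
  Squarefree M ∧ Res a b M ∧ ∀ q : ℕ, q.Prime → q ∣ M → Inert a b q

/-- the labels -/
noncomputable def th (a b : ℤ) (M p : ℕ) : ZMod 2 := if RtG a b p M then 1 else 0

variable {a b : ℤ} {M : ℕ} {T : Set ℕ}

lemma cos_one (a b : ℤ) : Cos a b 1 :=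
  ⟨squarefree_one, res_one a b, fun q hq h => absurd (Nat.dvd_one.1 h) hq.one_lt.ne'⟩

lemma sy_nq (hT : ∀ p ∈ T, Split a b p) : Sy nq T :=
  ⟨fun p _ => nq_self p, fun p hp q hq => nq_symm (hT p hp).1 (hT p hp).2.1 (hT q hq).1 (by
    rintro rfl
    have := (hT 2 hq).2.1
    omega)⟩

lemma cos_nd (hM : Cos a b M) {p : ℕ} (hp : Split a b p) : ¬ p ∣ M := fun h => by
  haveI : Fact p.Prime := ⟨hp.1⟩
  exact (hM.2.2 p hp.1 h).2.2.1 (split_b hp).1

theorem hg_of (hb : b ≠ 0) (hc : a ^ 2 - 4 * b ≠ 0) (hM : Cos a b M) {P : Finset ℕ}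
    (hP : ∀ p ∈ P, Split a b p) : HG a b M P where
  hb := hb
  hc := hc
  sqf := by
    rw [Int.squarefree_natCast]
    have h1 : Nat.Coprime (∏ p ∈ P, p) M :=
      Nat.Coprime.prod_left fun p hp => ((hP p hp).1.coprime_iff_not_dvd).2 (cos_nd hM (hP p hp))
    rw [Nat.squarefree_mul h1]
    refine ⟨?_, hM.1⟩
    refine Finset.squarefree_prod_of_pairwise_isCoprime (fun p hp q hq hpq => ?_)
      fun p hp => (hP p hp).1.squarefree
    show IsRelPrime p q
    rw [← Nat.coprime_iff_isRelPrime]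
    exact (Nat.coprime_primes (hP p hp).1 (hP q hq).1).mpr hpq
  res := res_mul (res_prod fun p hp => (hP p hp).2) hM.2.1
  pr := hP
  two := fun q hq h => (hM.2.2 q hq h).2

theorem ker_kj {P J : Finset ℕ} (hP : ∀ p ∈ P, Split a b p) (hJ : J ⊆ P) :
    KerG a b M P J ↔ KJ nq (th a b M) P J := by
  have hPp : ∀ p ∈ P, p.Prime := fun p hp => (hP p hp).1
  unfold KerG KJ
  refine and_congr (forall₂_congr fun p hp => ?_) (forall₂_congr fun p hp => ?_)
  · obtain ⟨h1, h2⟩ := Finset.mem_sdiff.1 hp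
    rw [← nq_zero, nq_prod (hPp p h1) (fun q hq => hPp q (hJ hq)) h2]
  · rw [← nq_prod (hPp p (hJ hp)) (fun q hq => hPp q (Finset.mem_sdiff.1 hq).1)
      (fun h => (Finset.mem_sdiff.1 h).2 hp)]
    unfold th nq
    generalize IsSquare ((∏ q ∈ P \ J, q : ℕ) : ZMod p) = c'
    generalize RtG a b p M = a'
    have e1 : (1 + 1 : ZMod 2) = 0 := by decide
    have e2 : ¬ (1 + 0 : ZMod 2) = 0 := by decide
    have e3 : ¬ (0 + 1 : ZMod 2) = 0 := by decide
    have e4 : (0 + 0 : ZMod 2) = 0 := by decide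
    by_cases h1 : a' <;> by_cases h3 : c' <;>
      simp only [h1, h3, if_true, if_false, e1, e2, e3, e4] <;> tauto

theorem kap_kq {P : Finset ℕ} (hP : ∀ p ∈ P, Split a b p) :
    kapG a b M P = kq nq (th a b M) P := by
  unfold kapG kq
  exact congrArg Finset.card (Finset.filter_congr fun J hJ => ker_kj hP (Finset.mem_powerset.1 hJ))

/-- the number of the elements of the Selmer group of the twist -/
noncomputable def sD (a b : ℤ) (D : ℕ) : ℕ := sel (a * (D : ℤ)) (b * (D : ℤ) ^ 2)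

/-- the number of the elements of the dual Selmer group of the twist -/
noncomputable def sD' (a b : ℤ) (D : ℕ) : ℕ :=
  sel (-2 * (a * (D : ℤ))) ((a * (D : ℤ)) ^ 2 - 4 * (b * (D : ℤ) ^ 2))

/-- `2 ^ rank · #Ш[2]` -/
noncomputable def rs (a b : ℤ) (D : ℕ) : ℕ :=
  2 ^ rk (twE a b D) * Nat.card {x : Sha (twE a b D) // 2 • x = 0}

theorem sel_pos (a : ℤ) (hb : b ≠ 0) : 0 < sel a b :=
  (Set.ncard_pos (Pool.Agent.U796.GE.selSet_finite hb)).2 ⟨1, Pool.Agent.U796.GE.one_mem a b⟩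

theorem sD_kq (hb : b ≠ 0) (hc : a ^ 2 - 4 * b ≠ 0) (hM : Cos a b M) {P : Finset ℕ}
    (hP : ∀ p ∈ P, Split a b p) :
    sD a b ((∏ p ∈ P, p) * M) = kq nq (th a b M) P * sel a b ∧
    sD' a b ((∏ p ∈ P, p) * M) = kq nq (th a b M) P * sel (-2 * a) (a ^ 2 - 4 * b) := by
  have H := hg_of hb hc hM hP
  rw [← kap_kq hP]
  exact ⟨H.sel_eq Pool.Agent.U739.GE.t_GOOD, H.sel_eq' Pool.Agent.U739.GE.t_GOOD⟩

theorem rs_kq (hb : b ≠ 0) (hc : a ^ 2 - 4 * b ≠ 0) (nb : ¬ IsSquare b)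
    (nc : ¬ IsSquare (a ^ 2 - 4 * b)) (hM : Cos a b M) {P : Finset ℕ}
    (hP : ∀ p ∈ P, Split a b p) :
    Finite {x : Sha (twE a b ((∏ p ∈ P, p) * M)) // 2 • x = 0} ∧
    kq nq (th a b M) P ≤ rs a b ((∏ p ∈ P, p) * M) ∧
    4 * rs a b ((∏ p ∈ P, p) * M) ≤
      kq nq (th a b M) P ^ 2 * (sel a b * sel (-2 * a) (a ^ 2 - 4 * b)) := by
  have H := hg_of hb hc hM hP
  have h1 := H.bound Pool.Agent.U739.GE.t_GOOD Pool.Agent.U796.GE.t_BND (D := (∏ p ∈ P, p) * M) rfl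
  have h2 := H.conv2 Pool.Agent.U739.GE.t_GOOD Pool.Agent.U796.GE.t_BND nb nc
    (D := (∏ p ∈ P, p) * M) rfl
  rw [kap_kq hP] at h1 h2
  refine ⟨h1.1, h2, ?_⟩
  unfold rs
  rw [← mul_assoc]
  exact h1.2

end Pool.Agent.U120.BR
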