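import Pool.Agent.U687.JT.Quad
import Pool.Agent.U120.BR.Lk

/-!
# The joint law of the residue symbols and of the labels: the Galois field
-/

set_option autoImplicit false
set_option linter.unusedSectionVars false
set_option linter.style.haveILetI false

open scoped Classical

namespace Pool.Agent.U120.BR

open Finset NumberField Polynomial
open Pool.Agent.W401.Cheb (HasFrob TorAt torsor)
open Pool.Agent.U115.GE
open Q283.TW (ng ng_mul gal_sqrt frob_sqrt fixed_iff cast_inj two_ne coe_smul' exists_nonres)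

/-- **Primes with given symbols**, `1` modulo `8`. -/
theorem exists_prime8 (R : Finset ℕ) (hR : ∀ r ∈ R, r.Prime ∧ r ≠ 2)
    (ε : ℕ → Prop) (B : ℕ) : ∃ p, B < p ∧ p.Prime ∧ p % 8 = 1 ∧
      ∀ r ∈ R, (IsSquare (r : ZMod p) ↔ ε r) := by
  have hex : ∀ r : ℕ, ∃ a : ℕ, (r ∈ R → (IsSquare (a : ZMod r) ↔ ε r) ∧ Nat.Coprime a r) := by
    intro r
    by_cases hr : r ∈ R
    · by_cases he : ε r
      · exact ⟨1, fun _ => ⟨⟨fun _ => he, fun _ => by simp⟩, Nat.coprime_one_left r⟩⟩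
      · obtain ⟨a, ha⟩ := exists_nonres r (hR r hr).1 (hR r hr).2
        refine ⟨a, fun _ => ⟨⟨fun h => absurd h ha, fun h => absurd h he⟩, ?_⟩⟩
        rw [Nat.coprime_comm, (hR r hr).1.coprime_iff_not_dvd]
        intro h
        apply ha
        rw [(ZMod.natCast_eq_zero_iff a r).2 h]
        exact ⟨0, by simp⟩
    · exact ⟨0, fun h => absurd h hr⟩
  choose a ha using hex
  have h8 : 8 ∉ R := by
    intro h
    have := (hR 8 h).1
    norm_num at this
  set b : ℕ → ℕ := fun r => if r = 8 then 1 else a r with hb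
  have hpp : Set.Pairwise (↑(insert 8 R) : Set ℕ) (Function.onFun Nat.Coprime (fun r : ℕ => r)) := by
    intro x hx y hy hxy
    simp only [Finset.coe_insert, Set.mem_insert_iff, Finset.mem_coe] at hx hy
    show Nat.Coprime x y
    have h81 : ∀ r ∈ R, Nat.Coprime 8 r := by
      intro r hr
      obtain ⟨h1, h2⟩ := hR r hr
      rw [Nat.coprime_comm, h1.coprime_iff_not_dvd]
      intro h
      have h4 : r ∣ 2 ^ 3 := by norm_num; exact h
      exact h2 ((Nat.prime_dvd_prime_iff_eq h1 Nat.prime_two).1 (h1.dvd_of_dvd_pow h4))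
    rcases hx with rfl | hx <;> rcases hy with rfl | hy
    · exact absurd rfl hxy
    · exact h81 y hy
    · exact (h81 x hx).symm
    · exact (Nat.coprime_primes (hR x hx).1 (hR y hy).1).2 hxy
  have hne : ∀ i ∈ insert 8 R, (fun r : ℕ => r) i ≠ 0 := by
    intro i hi
    rw [Finset.mem_insert] at hi
    rcases hi with rfl | hi
    · norm_num
    · exact (hR i hi).1.ne_zero
  obtain ⟨k, hk⟩ := Nat.chineseRemainderOfFinset b (fun r => r) (insert 8 R) hne hpp
  set M := 8 * ∏ r ∈ R, r with hM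
  have hM0 : M ≠ 0 := Nat.mul_ne_zero (by norm_num)
    (Finset.prod_ne_zero_iff.2 fun r hr => (hR r hr).1.ne_zero)
  have hk8 : k ≡ 1 [MOD 8] := by
    have := hk 8 (Finset.mem_insert_self _ _)
    simpa [hb] using this
  have hkr : ∀ r ∈ R, k ≡ a r [MOD r] := by
    intro r hr
    have h1 := hk r (Finset.mem_insert_of_mem hr)
    have h2 : r ≠ 8 := by rintro rfl; exact h8 hr
    simpa [hb, h2] using h1
  have hkM : Nat.Coprime k M := by
    rw [hM]
    apply Nat.Coprime.mul_right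
    · have h1 : Nat.gcd k 8 = Nat.gcd 1 8 := hk8.gcd_eq
      show Nat.gcd k 8 = 1
      rw [h1]; norm_num
    · apply Nat.Coprime.prod_right
      intro r hr
      show Nat.gcd k r = 1
      rw [(hkr r hr).gcd_eq]
      exact (ha r hr).2
  obtain ⟨p, hpB, hp, hpk⟩ := Nat.forall_exists_prime_gt_and_modEq B hM0 hkM
  have hp8 : p ≡ 1 [MOD 8] := (hpk.of_dvd ⟨∏ r ∈ R, r, hM⟩).trans hk8
  haveI : Fact p.Prime := ⟨hp⟩
  have h81 : p % 8 = 1 := by
    have := hp8
    unfold Nat.ModEq at this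
    omega
  refine ⟨p, hpB, hp, h81, ?_⟩
  intro r hr
  haveI : Fact r.Prime := ⟨(hR r hr).1⟩
  have hpr : p ≡ a r [MOD r] :=
    (hpk.of_dvd (((Finset.dvd_prod_of_mem (fun r => r) hr)).mul_left 8)).trans (hkr r hr)
  rw [ZMod.exists_sq_eq_prime_iff_of_mod_four_eq_one (by omega) (hR r hr).2]
  have h1 : (p : ZMod r) = (a r : ZMod r) := (ZMod.natCast_eq_natCast_iff _ _ _).2 hpr
  rw [h1]
  exact (ha r hr).1

/-- the data: `√-1`, the square roots of the elements of `S`, a root of `X⁴ + a X² + b` -/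
structure GD (L : Type) [Field L] [NumberField L] [IsGalois ℚ L] (a b : ℤ) (S : Finset ℕ) where
  I : L
  hI : I ^ 2 = ((-1 : ℤ) : L)
  s : ℕ → L
  hs : ∀ r ∈ S, (s r) ^ 2 = (((r : ℕ) : ℤ) : L)
  t : L
  ht : t ^ 4 + (a : L) * t ^ 2 + (b : L) = 0

theorem exists_gd (a b : ℤ) (S : Finset ℕ) : ∃ (L : Type) (_ : Field L) (_ : NumberField L)
    (_ : IsGalois ℚ L), Nonempty (GD L a b S) := by
  set q : ℤ → ℚ[X] := fun c => X ^ 2 - C (c : ℚ) with hq
  set h : ℚ[X] := X ^ 4 + C (a : ℚ) * X ^ 2 + C (b : ℚ) with hh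
  set f : ℚ[X] := q (-1) * (h * ∏ r ∈ S, q (r : ℤ)) with hf
  have hqd : ∀ c, (q c).natDegree = 2 := by intro c; rw [hq]; exact natDegree_X_pow_sub_C
  have hhd : h.natDegree = 4 := by rw [hh]; compute_degree!
  have hh0 : h ≠ 0 := by intro h0; rw [h0] at hhd; simp at hhd
  have hq0 : ∀ c, q c ≠ 0 := by intro c h0; have := hqd c; rw [h0] at this; simp at this
  have hf0 : f ≠ 0 := mul_ne_zero (hq0 _) (mul_ne_zero hh0
    (Finset.prod_ne_zero_iff.2 fun r _ => hq0 _))
  obtain ⟨L, hL, hN, hG, hsp⟩ := Q283.TW.gen_split_rat f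
  refine ⟨L, hL, hN, hG, ?_⟩
  have hfm : f.map (algebraMap ℚ L) ≠ 0 := by
    rwa [Ne, Polynomial.map_eq_zero]
  have key : ∀ g : ℚ[X], g ∣ f → g.natDegree ≠ 0 →
      ∃ x : L, (g.map (algebraMap ℚ L)).eval x = 0 := by
    intro g hg hd
    have h1 := hsp.of_dvd hfm (Polynomial.map_dvd _ hg)
    refine h1.exists_eval_eq_zero ?_
    rw [Polynomial.degree_map]
    intro h2
    exact hd (natDegree_eq_of_degree_eq_some h2)
  have hsq : ∀ c : ℤ, q c ∣ f → ∃ x : L, x ^ 2 = ((c : ℤ) : L) := by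
    intro c hc
    obtain ⟨x, hx⟩ := key (q c) hc (by rw [hqd]; norm_num)
    refine ⟨x, ?_⟩
    rw [hq] at hx
    simp at hx
    linear_combination hx
  obtain ⟨I, hI⟩ := hsq (-1) (Dvd.intro _ rfl)
  obtain ⟨t, ht⟩ := key h ((Dvd.intro _ rfl : h ∣ h * ∏ r ∈ S, q (r : ℤ)).trans
    (Dvd.intro_left _ rfl)) (by rw [hhd]; norm_num)
  have hr : ∀ r : ℕ, ∃ x : L, r ∈ S → x ^ 2 = (((r : ℕ) : ℤ) : L) := by
    intro r
    by_cases hrS : r ∈ S
    · obtain ⟨x, hx⟩ := hsq (r : ℤ) (((Finset.dvd_prod_of_mem (fun r : ℕ => q (r : ℤ)) hrS).mul_left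
        h).trans (Dvd.intro_left _ rfl))
      exact ⟨x, fun _ => hx⟩
    · exact ⟨0, fun h1 => absurd h1 hrS⟩
  choose s hs using hr
  refine ⟨{ I := I, hI := hI, s := s, hs := fun r hr => hs r hr, t := t, ht := ?_ }⟩
  rw [hh] at ht
  simp at ht
  linear_combination ht

section
variable {L : Type} [Field L] [NumberField L] [IsGalois ℚ L] {a b : ℤ} {S : Finset ℕ}
  (E : GD L a b S)

theorem GD.t_int : IsIntegral ℤ E.t := by
  refine ⟨X ^ 4 + C a * X ^ 2 + C b, ?_, ?_⟩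
  · monicity!
  · rw [eval₂_add, eval₂_add, eval₂_mul, eval₂_X_pow, eval₂_X_pow, eval₂_C, eval₂_C,
      algebraMap_int_eq, eq_intCast, eq_intCast]
    exact E.ht

theorem GD.t0 (hb : b ≠ 0) : E.t ≠ 0 := by
  intro h
  have h1 := E.ht
  rw [h] at h1
  have h2 : (b : L) = 0 := by linear_combination h1
  exact hb (by exact_mod_cast h2)

theorem GD.s0 {r : ℕ} (hr : r ∈ S) (h0 : r ≠ 0) : E.s r ≠ 0 := by
  intro h
  have h1 := E.hs r hr
  rw [h, zero_pow (by norm_num)] at h1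
  have h2 : ((r : ℕ) : L) = 0 := by exact_mod_cast h1.symm
  exact h0 (by exact_mod_cast h2)

/-- the square root of `a² - 4 b` -/
theorem GD.u2 : (2 * E.t ^ 2 + (a : L)) ^ 2 = ((a ^ 2 - 4 * b : ℤ) : L) := by
  push_cast
  linear_combination 4 * E.ht

/-- the square root of `b` -/
theorem GD.w2 (k : Gal(L/ℚ)) (hk : k (2 * E.t ^ 2 + (a : L)) = -(2 * E.t ^ 2 + (a : L))) :
    (E.t * k E.t) ^ 2 = ((b : ℤ) : L) := by
  have h1 : (k E.t) ^ 2 = -E.t ^ 2 - (a : L) := by
    rw [map_add, map_mul, map_pow, map_ofNat, map_intCast] at hk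
    have h2 : (2 : L) * ((k E.t) ^ 2 - (-E.t ^ 2 - (a : L))) = 0 := by linear_combination hk
    rcases mul_eq_zero.1 h2 with h3 | h3
    · norm_num at h3
    · linear_combination h3
  rw [mul_pow, h1]
  linear_combination -E.ht

end

end Pool.Agent.U120.BR
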