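import Pool.Agent.U120.BR.Ga

/-!
# The joint law of the residue symbols and of the labels: Frobenius elements and surjectivity
-/

set_option autoImplicit false
set_option linter.unusedSectionVars false
set_option linter.style.haveILetI false

open scoped Classical

namespace Pool.Agent.U120.BR

open Finset NumberField
open Pool.Agent.W401.Cheb (HasFrob TorAt torsor)
open Pool.Agent.U115.GE
open Pool.Agent.Y698.SG (nq)
open Pool.Agent.U687.JT (ng_one exists_fr)
open Q283.TW (ng ng_mul gal_sqrt frob_sqrt fixed_iff two_ne coe_smul')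

section
variable {L : Type} [Field L] [NumberField L] [IsGalois ℚ L] {a b : ℤ} {S : Finset ℕ}
  (E : GD L a b S)

lemma neg_ne {x : L} (hx : x ≠ 0) : -x ≠ x := by
  intro h
  apply hx
  have h1 : (2 : L) * x = 0 := by linear_combination -h
  rcases mul_eq_zero.1 h1 with h5 | h5
  · norm_num at h5
  · exact h5

/-- **Frobenius and the label.** -/
theorem GD.frob_t (hb : b ≠ 0) {p : ℕ} [hp : Fact p.Prime] {φ : 𝓞 L →+* AlgebraicClosure (ZMod p)}
    {g : Gal(L/ℚ)} (hφ : HasFrob p φ g) (h2 : p ≠ 2) (hbs : IsSquare (b : ZMod p))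
    (hb0 : (b : ZMod p) ≠ 0) (hg : g E.t = E.t ∨ g E.t = -E.t) :
    RtG a b p 1 ↔ g E.t = -E.t := by
  obtain ⟨Θ, hΘ⟩ : ∃ S : 𝓞 L, algebraMap (𝓞 L) L S = E.t := ⟨⟨E.t, E.t_int⟩, rfl⟩
  have hinj : Function.Injective (algebraMap (𝓞 L) L) := RingOfIntegers.coe_injective
  have h1 : Θ ^ 4 + (a : 𝓞 L) * Θ ^ 2 + (b : 𝓞 L) = 0 := by
    apply hinj
    rw [map_add, map_add, map_mul, map_pow, map_pow, map_intCast, map_intCast, map_zero, hΘ]
    exact E.ht
  set ι := algebraMap (ZMod p) (AlgebraicClosure (ZMod p)) with hι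
  set t := φ Θ with ht
  have ht4 : t ^ 4 + ι (a : ZMod p) * t ^ 2 + ι (b : ZMod p) = 0 := by
    have := congrArg φ h1
    rw [map_add, map_add, map_mul, map_pow, map_pow, map_intCast, map_intCast, map_zero] at this
    rw [map_intCast, map_intCast]
    exact this
  have h20 := two_ne (p := p) h2
  have ht0 : t ≠ 0 := by
    intro h
    rw [h] at ht4
    apply hb0
    apply Q283.TW.cast_inj
    rw [map_zero]
    linear_combination ht4
  rcases hg with hgt | hgt
  · have hno : ¬ (g E.t = -E.t) := by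
      rw [hgt]
      exact fun h => neg_ne (E.t0 hb) h.symm
    have h5 : g • Θ = Θ := by
      apply hinj
      rw [coe_smul', hΘ, hgt]
    have h6 := hφ Θ
    rw [h5] at h6
    obtain ⟨z, hz⟩ := (fixed_iff _).1 h6.symm
    refine ⟨fun hR => ?_, fun h => absurd h hno⟩
    exfalso
    refine hR (z ^ 2) ?_ ⟨z, by ring⟩
    apply Q283.TW.cast_inj
    have hz' : ι z = t := hz
    rw [map_zero, map_add, map_add, map_mul, map_mul, map_mul, map_pow, map_pow, map_pow,
      map_natCast, hz', Nat.cast_one]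
    linear_combination ht4
  · refine ⟨fun _ => hgt, fun _ => ?_⟩
    intro x hx hxsq
    have h5 : g • Θ = -Θ := by
      apply hinj
      rw [coe_smul', hΘ, hgt, map_neg, hΘ]
    have h6 := hφ Θ
    rw [h5, map_neg, ← ht] at h6
    have hbad : ∀ w : ZMod p, t = ι w → False := by
      intro w hw
      have h7 : t ^ p = t := (fixed_iff _).2 ⟨w, hw.symm⟩
      rw [← h6] at h7
      have h8 : 2 * t = 0 := by linear_combination -h7
      rcases mul_eq_zero.1 h8 with h9 | h9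
      · exact h20 h9
      · exact ht0 h9
    obtain ⟨y, hy⟩ := hxsq
    obtain ⟨c, hc⟩ := hbs
    have hx' : (ι x) ^ 2 + ι (a : ZMod p) * ι x + ι (b : ZMod p) = 0 := by
      have := congrArg ι hx
      rw [map_zero, map_add, map_add, map_mul, map_mul, map_mul, map_pow, map_pow,
        map_natCast, Nat.cast_one] at this
      linear_combination this
    have hroot : (ι x - t ^ 2) * (ι x + ι (a : ZMod p) + t ^ 2) = 0 := by
      linear_combination hx' - ht4
    have hyx : ι x = (ι y) ^ 2 := by rw [hy, map_mul, sq]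
    rcases mul_eq_zero.1 hroot with h8 | h8
    · have h9 : t ^ 2 = (ι y) ^ 2 := by
        rw [← hyx]
        linear_combination -h8
      rcases sq_eq_sq_iff_eq_or_eq_neg.1 h9 with h10 | h10
      · exact hbad y h10
      · exact hbad (-y) (by rw [map_neg]; exact h10)
    · have hc' : ι (b : ZMod p) = (ι c) ^ 2 := by rw [hc, map_mul, sq]
      have h9 : (ι y * t) ^ 2 = (ι c) ^ 2 := by
        rw [mul_pow, ← hyx, ← hc']
        linear_combination t ^ 2 * h8 - ht4
      have hc0 : ι c ≠ 0 := by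
        intro h
        rw [h, zero_pow (by norm_num)] at hc'
        apply hb0
        apply Q283.TW.cast_inj
        rw [map_zero]
        exact hc'
      have hy0 : ι y ≠ 0 := by
        intro h
        rw [h, zero_mul, zero_pow (by norm_num)] at h9
        exact pow_ne_zero 2 hc0 h9.symm
      rcases sq_eq_sq_iff_eq_or_eq_neg.1 h9 with h12 | h12
      · refine hbad (c / y) ?_
        rw [map_div₀, eq_div_iff hy0]
        linear_combination h12
      · refine hbad (-c / y) ?_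
        rw [map_div₀, map_neg, eq_div_iff hy0]
        linear_combination h12

/-- the automorphisms fixing `√-1` and the square roots of the elements of `B` -/
def HB (B : Finset ℕ) : Subgroup Gal(L/ℚ) where
  carrier := {g | g E.I = E.I ∧ ∀ r ∈ B, g (E.s r) = E.s r}
  mul_mem' := by
    rintro g h ⟨g1, g2⟩ ⟨h1, h2⟩
    refine ⟨?_, fun r hr => ?_⟩
    · show g (h _) = _
      rw [h1, g1]
    · show g (h _) = _
      rw [h2 r hr, g2 r hr]
  one_mem' := ⟨rfl, fun _ _ => rfl⟩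
  inv_mem' := by
    rintro g ⟨g1, g2⟩
    refine ⟨?_, fun r hr => ?_⟩
    · have := congrArg (g⁻¹ : Gal(L/ℚ)) g1
      rw [← AlgEquiv.mul_apply, inv_mul_cancel, AlgEquiv.one_apply] at this
      exact this.symm
    · have := congrArg (g⁻¹ : Gal(L/ℚ)) (g2 r hr)
      rw [← AlgEquiv.mul_apply, inv_mul_cancel, AlgEquiv.one_apply] at this
      exact this.symm

variable {B : Finset ℕ}

theorem mem_HB {g : Gal(L/ℚ)} : g ∈ HB E B ↔ g E.I = E.I ∧ ∀ r ∈ B, g (E.s r) = E.s r := Iff.rfl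

theorem fix_nat (hBS : B ⊆ S) : ∀ n : ℕ, n ≠ 0 → (∀ l : ℕ, l.Prime → l ∣ n → l ∈ B) →
    ∃ v : L, v ^ 2 = (n : L) ∧ ∀ g ∈ HB E B, g v = v := by
  intro n
  induction n using induction_on_primes with
  | zero => intro h; exact absurd rfl h
  | one => intro _ _; exact ⟨1, by norm_num, fun g _ => map_one g⟩
  | prime_mul l n hl ih =>
    intro h0 h
    have hn : n ≠ 0 := right_ne_zero_of_mul h0
    obtain ⟨v, hv, hg⟩ := ih hn fun q hq hqn => h q hq (hqn.mul_left _)
    have hlB := h l hl (dvd_mul_right _ _)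
    refine ⟨E.s l * v, ?_, fun g hgB => ?_⟩
    · rw [mul_pow, hv, E.hs l (hBS hlB)]
      push_cast
      ring
    · rw [map_mul, hg g hgB, hgB.2 l hlB]

theorem fix_int (hBS : B ⊆ S) {z : ℤ} (hz : z ≠ 0) (h : ∀ l : ℕ, l.Prime → (l : ℤ) ∣ z → l ∈ B) :
    ∃ v : L, v ^ 2 = (z : L) ∧ ∀ g ∈ HB E B, g v = v := by
  obtain ⟨v, hv, hg⟩ := fix_nat E hBS z.natAbs (Int.natAbs_ne_zero.2 hz)
    fun l hl hd => h l hl (Int.natCast_dvd.2 hd)
  rcases Int.natAbs_eq z with h2 | h2
  · refine ⟨v, ?_, hg⟩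
    rw [hv, h2]
    push_cast
    simp
  · refine ⟨E.I * v, ?_, fun g hgB => ?_⟩
    · rw [mul_pow, hv, E.hI, h2]
      push_cast
      simp
    · rw [map_mul, hg g hgB, hgB.1]

theorem fix_sq (hBS : B ⊆ S) {z : ℤ} (hz : z ≠ 0) (h : ∀ l : ℕ, l.Prime → (l : ℤ) ∣ z → l ∈ B)
    {x : L} (hx : x ^ 2 = (z : L)) {g : Gal(L/ℚ)} (hg : g ∈ HB E B) : g x = x := by
  obtain ⟨v, hv, hgv⟩ := fix_int E hBS hz h
  have h1 : x ^ 2 = v ^ 2 := by rw [hx, hv]
  rcases sq_eq_sq_iff_eq_or_eq_neg.1 h1 with h2 | h2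
  · rw [h2, hgv g hg]
  · rw [h2, map_neg, hgv g hg]

theorem g_t (hBS : B ⊆ S) (hc : a ^ 2 - 4 * b ≠ 0)
    (h : ∀ l : ℕ, l.Prime → (l : ℤ) ∣ a ^ 2 - 4 * b → l ∈ B) {g : Gal(L/ℚ)} (hg : g ∈ HB E B) :
    g E.t = E.t ∨ g E.t = -E.t := by
  have h1 := fix_sq E hBS hc h E.u2 hg
  rw [map_add, map_mul, map_pow, map_ofNat, map_intCast] at h1
  have h2 : (2 : L) * ((g E.t) ^ 2 - E.t ^ 2) = 0 := by linear_combination h1
  rcases mul_eq_zero.1 h2 with h3 | h3
  · norm_num at h3
  · exact sq_eq_sq_iff_eq_or_eq_neg.1 (sub_eq_zero.1 h3)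

/-- an automorphism moving a square root of a nonsquare -/
theorem exists_move {z : ℤ} (hz : ¬ IsSquare z) {x : L} (hx : x ^ 2 = (z : L)) :
    ∃ k : Gal(L/ℚ), k x = -x := by
  by_contra hcon
  push Not at hcon
  have h1 : ∀ k : Gal(L/ℚ), k x = x := fun k => (gal_sqrt k hx).resolve_right (hcon k)
  have h2 := (IsGalois.mem_bot_iff_fixed x).2 h1
  obtain ⟨q, hq⟩ := IntermediateField.mem_bot.1 h2
  apply hz
  rw [← Rat.isSquare_intCast_iff]
  refine ⟨q, ?_⟩
  have h3 : algebraMap ℚ L (z : ℚ) = algebraMap ℚ L (q * q) := by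
    rw [map_mul, hq, map_intCast, ← hx, sq]
  exact (algebraMap ℚ L).injective h3

/-- the automorphism `κ` -/
theorem exists_kap (hb : b ≠ 0) (nb : ¬ IsSquare b) (nc : ¬ IsSquare (a ^ 2 - 4 * b))
    (hBS : B ⊆ S) : ∃ κ ∈ HB E B, κ E.t = -E.t ∧ ∀ r ∈ S, κ (E.s r) = E.s r := by
  set u := 2 * E.t ^ 2 + (a : L) with hu
  obtain ⟨k0, hk0⟩ := exists_move nc E.u2
  set w := E.t * k0 E.t with hw
  have hw2 : w ^ 2 = ((b : ℤ) : L) := E.w2 k0 hk0
  obtain ⟨k, hk1, hk2⟩ : ∃ k : Gal(L/ℚ), k u = -u ∧ k w = -w := by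
    rcases gal_sqrt k0 hw2 with h | h
    · obtain ⟨k1, hk1⟩ := exists_move nb hw2
      rcases gal_sqrt k1 E.u2 with h' | h'
      · refine ⟨k0 * k1, ?_, ?_⟩
        · show k0 (k1 u) = -u
          rw [h', hk0]
        · show k0 (k1 w) = -w
          rw [hk1, map_neg, h]
      · exact ⟨k1, h', hk1⟩
    · exact ⟨k0, hk0, h⟩
  have hv2 : (E.t * k E.t) ^ 2 = ((b : ℤ) : L) := E.w2 k hk1
  have hkt : k (E.t * k E.t) = -(E.t * k E.t) := by
    rcases sq_eq_sq_iff_eq_or_eq_neg.1 (hv2.trans hw2.symm) with h | h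
    · rw [h, hk2]
    · rw [h, map_neg, hk2]
  have hkt0 : k E.t ≠ 0 := by
    rw [Ne, map_eq_zero]
    exact E.t0 hb
  have hkk : k (k E.t) = -E.t := by
    rw [map_mul] at hkt
    have h1 : k E.t * (k (k E.t) + E.t) = 0 := by linear_combination hkt
    rcases mul_eq_zero.1 h1 with h2 | h2
    · exact absurd h2 hkt0
    · linear_combination h2
  have hs : ∀ {x : L} {z : ℤ}, x ^ 2 = (z : L) → (k * k) x = x := by
    intro x z hx
    show k (k x) = x
    rcases gal_sqrt k hx with h | h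
    · rw [h, h]
    · rw [h, map_neg, h, neg_neg]
  refine ⟨k * k, ⟨hs E.hI, fun r hr => hs (E.hs r (hBS hr))⟩, hkk, fun r hr => hs (E.hs r hr)⟩

end

end Pool.Agent.U120.BR
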