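import Pool.Agent.U120.BR.Gb

/-!
# The joint law of the residue symbols and of the labels
-/

set_option autoImplicit false
set_option linter.unusedSectionVars false
set_option linter.style.haveILetI false

open scoped Classical

namespace Pool.Agent.U120.BR

open Finset NumberField Filter Topology
open Pool.Agent.W401.Cheb (HasFrob TorAt torsor M pr mem_pr)
open Pool.Agent.U115.GE
open Pool.Agent.Y698.SG (nq)
open Pool.Agent.U687.JT (ng_one exists_fr dens_gen ratio_lim)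
open Q283.TW (ng ng_mul gal_sqrt frob_sqrt)
open Pool.Agent.U707.SHA (mem_bad)

/-- the odd bad primes -/
noncomputable def bd (a b : ℤ) : Finset ℕ := Pool.Agent.U707.SHA.bad a b

section
variable {L : Type} [Field L] [NumberField L] [IsGalois ℚ L] {a b : ℤ} {R : Finset ℕ}

/-- the set of the primes whose square roots are used -/
noncomputable def SS (a b : ℤ) (R : Finset ℕ) : Finset ℕ := insert 2 (bd a b) ∪ R

lemma bs (a b : ℤ) (R : Finset ℕ) : insert 2 (bd a b) ⊆ SS a b R := Finset.subset_union_left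

lemma rs' (a b : ℤ) (R : Finset ℕ) : R ⊆ SS a b R := Finset.subset_union_right

lemma bd_c (hb : b ≠ 0) (hc : a ^ 2 - 4 * b ≠ 0) {l : ℕ} (hl : l.Prime)
    (h : (l : ℤ) ∣ a ^ 2 - 4 * b) : l ∈ insert 2 (bd a b) := by
  by_cases h2 : l = 2
  · exact Finset.mem_insert.2 (Or.inl h2)
  · exact Finset.mem_insert_of_mem ((mem_bad hb hc).2 ⟨hl, h2, h.mul_left _⟩)

variable (E : GD L a b (SS a b R))

variable (hb : b ≠ 0) (hc : a ^ 2 - 4 * b ≠ 0) (hR : ∀ r ∈ R, r ≠ 0)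

/-- the symbols -/
noncomputable def Φ : HB E (insert 2 (bd a b)) →* Multiplicative ((R → ZMod 2) × ZMod 2) where
  toFun g := Multiplicative.ofAdd (fun r : R => ng g.1 (E.s r), ng g.1 E.t)
  map_one' := by
    rw [← ofAdd_zero]
    congr 1
    refine Prod.ext ?_ ?_
    · funext r
      exact ng_one _
    · exact ng_one _
  map_mul' g h := by
    rw [← ofAdd_add]
    congr 1
    refine Prod.ext ?_ ?_
    · funext r
      exact ng_mul _ _ (E.s0 (rs' a b R r.2) (hR r r.2)) (gal_sqrt g.1 (E.hs r (rs' a b R r.2)))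
        (gal_sqrt h.1 (E.hs r (rs' a b R r.2)))
    · exact ng_mul _ _ (E.t0 hb) (g_t E (bs a b R) hc (fun l hl h => bd_c hb hc hl h) g.2)
        (g_t E (bs a b R) hc (fun l hl h => bd_c hb hc hl h) h.2)

variable {p : ℕ} [hp : Fact p.Prime] {φ : 𝓞 L →+* AlgebraicClosure (ZMod p)} {g : Gal(L/ℚ)}

lemma cast_ne' {r : ℕ} (hr : r.Prime) (h : r ≠ p) : ((((r : ℕ) : ℤ) : ℤ) : ZMod p) ≠ 0 := by
  intro h1
  rw [Int.cast_natCast, ZMod.natCast_eq_zero_iff] at h1
  exact h ((Nat.prime_dvd_prime_iff_eq hp.out hr).1 h1).symm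

include hb hc in
/-- **the split primes** -/
theorem split_iff (hφ : HasFrob p φ g) (h2 : p ≠ 2) (hbd : p ∉ bd a b) :
    Split a b p ↔ g ∈ HB E (insert 2 (bd a b)) := by
  have h1 : (((-1 : ℤ) : ℤ) : ZMod p) ≠ 0 := by
    push_cast
    exact neg_ne_zero.2 one_ne_zero
  have hI : g E.I = E.I ↔ p % 4 = 1 := by
    rw [← frob_sqrt hφ E.hI h2 h1]
    have h : (((-1 : ℤ) : ℤ) : ZMod p) = -1 := by push_cast; rfl
    rw [h, ZMod.exists_sq_eq_neg_one_iff]
    have := hp.out.eq_two_or_odd.resolve_left h2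
    omega
  have h2' : g (E.s 2) = E.s 2 ↔ p % 8 = 1 ∨ p % 8 = 7 := by
    rw [← frob_sqrt hφ (E.hs 2 (bs a b R (Finset.mem_insert_self _ _))) h2
      (cast_ne' Nat.prime_two (Ne.symm h2)), ← ZMod.exists_sq_eq_two_iff h2]
    push_cast
    exact Iff.rfl
  have hl : ∀ l ∈ bd a b, p % 4 = 1 → (g (E.s l) = E.s l ↔ IsSquare (p : ZMod l)) := by
    intro l hl h4
    obtain ⟨g1, g2, g3⟩ := (mem_bad hb hc).1 hl
    haveI : Fact l.Prime := ⟨g1⟩
    rw [← frob_sqrt hφ (E.hs l (bs a b R (Finset.mem_insert_of_mem hl))) h2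
      (cast_ne' g1 (by rintro rfl; exact hbd hl)), Int.cast_natCast,
      ZMod.exists_sq_eq_prime_iff_of_mod_four_eq_one h4 g2]
  rw [mem_HB]
  constructor
  · rintro ⟨-, h8, h⟩
    refine ⟨hI.2 (by omega), fun r hr => ?_⟩
    rcases Finset.mem_insert.1 hr with rfl | hr
    · exact h2'.2 (by omega)
    · obtain ⟨g1, g2, g3⟩ := (mem_bad hb hc).1 hr
      exact (hl r hr (by omega)).2 (h r g1 g2 g3).2
  · rintro ⟨g1, g2⟩
    have h4 := hI.1 g1
    have h8 := h2'.1 (g2 2 (Finset.mem_insert_self _ _))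
    refine ⟨hp.out, by omega, fun l hlp hl2 hld => ?_⟩
    have hlb : l ∈ bd a b := (mem_bad hb hc).2 ⟨hlp, hl2, hld⟩
    refine ⟨fun h => hbd ?_, (hl l hlb h4).1 (g2 l (Finset.mem_insert_of_mem hlb))⟩
    rw [(Nat.prime_dvd_prime_iff_eq hlp hp.out).1 h] at hlb
    exact hlb

/-- the symbols at a Frobenius element -/
theorem ng_s (hφ : HasFrob p φ g) (h2 : p ≠ 2) {r : ℕ} (hr : r ∈ R) (hrp : r.Prime)
    (h : r ≠ p) : ng g (E.s r) = nq p r := by
  have h1 := frob_sqrt hφ (E.hs r (rs' a b R hr)) h2 (cast_ne' hrp h)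
  rw [Int.cast_natCast] at h1
  unfold ng nq
  by_cases h3 : g (E.s r) = E.s r
  · rw [if_pos h3, if_pos (h1.2 h3)]
  · rw [if_neg h3, if_neg fun h4 => h3 (h1.1 h4)]

include hc in
theorem ng_t (hb : b ≠ 0) (hφ : HasFrob p φ g) (hs : Split a b p)
    (hg : g ∈ HB E (insert 2 (bd a b))) : ng g E.t = th a b 1 p := by
  obtain ⟨h1, h2, -, -⟩ := split_b hs
  have hgt := g_t E (bs a b R) hc (fun l hl h => bd_c hb hc hl h) hg
  have h3 := E.frob_t hb hφ (by
    rintro rfl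
    have := hs.2.1
    omega) h1 h2 hgt
  unfold ng th
  by_cases h4 : RtG a b p 1
  · rw [if_pos h4, h3.1 h4, if_neg (neg_ne (E.t0 hb))]
  · rw [if_neg h4, if_pos (hgt.resolve_right fun h => h4 (h3.2 h))]

end

section
variable {L : Type} [Field L] [NumberField L] [IsGalois ℚ L] {a b : ℤ} {R : Finset ℕ}
  (E : GD L a b (SS a b R)) (hb : b ≠ 0) (hc : a ^ 2 - 4 * b ≠ 0)

theorem surjΦ (nb : ¬ IsSquare b) (nc : ¬ IsSquare (a ^ 2 - 4 * b))
    (hR : ∀ r ∈ R, r.Prime ∧ r ≠ 2 ∧ r ∉ bd a b) (hR0 : ∀ r ∈ R, r ≠ 0) :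
    Function.Surjective (Φ E hb hc hR0) := by
  obtain ⟨D₁, hD₁, htor⟩ := torsor L
  have hbdp : ∀ l ∈ bd a b, l.Prime ∧ l ≠ 2 := fun l hl =>
    ⟨((mem_bad hb hc).1 hl).1, ((mem_bad hb hc).1 hl).2.1⟩
  obtain ⟨κ, hκ, hκt, hκs⟩ := exists_kap E hb nb nc (bs a b R)
  set S0 := bd a b ∪ R with hS0
  have hS0p : ∀ r ∈ S0, r.Prime ∧ r ≠ 2 := by
    intro r hr
    rcases Finset.mem_union.1 hr with h | h
    · exact hbdp r h
    · exact ⟨(hR r h).1, (hR r h).2.1⟩
  have hprod : 0 < ∏ r ∈ S0, r := Finset.prod_pos fun r hr => (hS0p r hr).1.pos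
  have hle : ∀ r ∈ S0, r ≤ ∏ r ∈ S0, r := fun r hr =>
    Nat.le_of_dvd hprod (Finset.dvd_prod_of_mem (fun r => r) hr)
  have hall : ∀ u : R → ZMod 2, ∃ g : HB E (insert 2 (bd a b)),
      ∀ r : R, ng g.1 (E.s r) = u r := by
    intro u
    obtain ⟨p, h1, h2, h8, h3⟩ := exists_prime8 S0 hS0p
      (fun r => ∀ h : r ∈ R, u ⟨r, h⟩ = 0) (D₁ + 2 + ∏ r ∈ S0, r)
    haveI : Fact p.Prime := ⟨h2⟩
    have hpD : ¬ p ∣ D₁ := fun h => by
      have := Nat.le_of_dvd hD₁ h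
      omega
    have hp2 : p ≠ 2 := by omega
    have hpS : ∀ r ∈ S0, r ≠ p := fun r hr h => by
      have := hle r hr
      omega
    obtain ⟨φ, g, hφ⟩ := exists_fr (L := L) p (htor p hpD)
    have hsp : Split a b p := by
      refine ⟨h2, h8, fun l hl hl2 hld => ?_⟩
      have hlb : l ∈ bd a b := (mem_bad hb hc).2 ⟨hl, hl2, hld⟩
      haveI : Fact l.Prime := ⟨hl⟩
      have hlS : l ∈ S0 := Finset.mem_union_left _ hlb
      refine ⟨fun h => hpS l hlS ((Nat.prime_dvd_prime_iff_eq hl h2).1 h), ?_⟩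
      rw [← ZMod.exists_sq_eq_prime_iff_of_mod_four_eq_one (by omega) hl2, h3 l hlS]
      intro h
      exact absurd hlb (hR l h).2.2
    have hg : g ∈ HB E (insert 2 (bd a b)) := (split_iff E hb hc hφ hp2 fun h =>
      hpS p (Finset.mem_union_left _ h) rfl).1 hsp
    refine ⟨⟨g, hg⟩, fun r => ?_⟩
    have hrS : (r : ℕ) ∈ S0 := Finset.mem_union_right _ r.2
    rw [ng_s E hφ hp2 r.2 (hR r r.2).1 (hpS r hrS)]
    have h5 := h3 r hrS
    unfold nq
    by_cases h6 : u r = 0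
    · rw [if_pos (h5.2 fun _ => h6), h6]
    · rw [if_neg fun h => h6 (h5.1 h r.2)]
      exact ((z2 _).resolve_left h6).symm
  intro x
  set y := Multiplicative.toAdd x with hy
  have hx : x = Multiplicative.ofAdd y := rfl
  obtain ⟨g, hg⟩ := hall y.1
  by_cases h : ng g.1 E.t = y.2
  · refine ⟨g, ?_⟩
    show Multiplicative.ofAdd _ = _
    rw [hx]
    congr 1
    exact Prod.ext (funext hg) h
  · refine ⟨g * ⟨κ, hκ⟩, ?_⟩
    rw [map_mul, hx]
    show Multiplicative.ofAdd _ * Multiplicative.ofAdd _ = _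
    rw [← ofAdd_add]
    congr 1
    refine Prod.ext ?_ ?_
    · funext r
      show ng g.1 (E.s r) + ng κ (E.s r) = y.1 r
      have h1 : ng κ (E.s r) = 0 := by
        unfold ng
        rw [if_pos (hκs r (rs' a b R r.2))]
      rw [hg, h1, add_zero]
    · show ng g.1 E.t + ng κ E.t = y.2
      have h1 : ng κ E.t = 1 := by
        unfold ng
        rw [if_neg]
        rw [hκt]
        exact neg_ne (E.t0 hb)
      rw [h1]
      have h2 : ∀ c d : ZMod 2, c ≠ d → c + 1 = d := by decide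
      exact h2 _ _ h

end

section
variable {a b : ℤ} (hb : b ≠ 0) (hc : a ^ 2 - 4 * b ≠ 0) (nb : ¬ IsSquare b)
  (nc : ¬ IsSquare (a ^ 2 - 4 * b)) (R : Finset ℕ) (hR : ∀ r ∈ R, r.Prime ∧ r ≠ 2 ∧ r ∉ bd a b)

include hb hc nb nc hR

/-- **the joint law**, means over the primes -/
theorem law_M : ∃ c : ℝ, 0 < c ∧ ∀ (U : (R → ZMod 2) × ZMod 2 → Prop) (C : ℕ → Prop),
    (∀ p : ℕ, (∀ r ∈ R, r ≠ p) →
      (C p ↔ Split a b p ∧ U (fun r : R => nq p r, th a b 1 p))) →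
    Tendsto (M fun p => if C p then (1 : ℝ) else 0) atTop
      (𝓝 (c * ((Nat.card {u : (R → ZMod 2) × ZMod 2 // U u} : ℝ) / 2 ^ (R.card + 1)))) := by
  obtain ⟨L, hL, hN, hG, ⟨E⟩⟩ := exists_gd a b (SS a b R)
  have hR0 : ∀ r ∈ R, r ≠ 0 := fun r hr => (hR r hr).1.ne_zero
  have hs := surjΦ E hb hc nb nc hR hR0
  have hH : 0 < Nat.card (HB E (insert 2 (bd a b))) := Nat.card_pos
  have hGa : 0 < Nat.card Gal(L/ℚ) := Nat.card_pos
  refine ⟨(Nat.card (HB E (insert 2 (bd a b))) : ℝ) / Nat.card Gal(L/ℚ), by positivity,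
    fun U C hUC => ?_⟩
  set N0 : ℕ := 2 * ((∏ r ∈ bd a b, r) * ∏ r ∈ R, r) with hN0
  have hbp : ∀ r ∈ bd a b, r.Prime := fun r hr => ((mem_bad hb hc).1 hr).1
  have hN0p : 0 < N0 := by
    have h1 : 0 < ∏ r ∈ bd a b, r := Finset.prod_pos fun r hr => (hbp r hr).pos
    have h2 : 0 < ∏ r ∈ R, r := Finset.prod_pos fun r hr => (hR r hr).1.pos
    positivity
  have e1 : Nat.card ((R → ZMod 2) × ZMod 2) = 2 ^ (R.card + 1) := by
    rw [Nat.card_prod, Nat.card_fun]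
    simp [pow_succ]
  have d := dens_gen (HB E (insert 2 (bd a b))) (A := (R → ZMod 2) × ZMod 2) (Φ E hb hc hR0) hs
    U C N0 hN0p (by
      intro p hp hpN φ g hφ
      have h2 : p ≠ 2 := by
        rintro rfl
        exact hpN (dvd_mul_right _ _)
      have hbd : p ∉ bd a b := fun h => hpN
        (((Finset.dvd_prod_of_mem (fun r => r) h).mul_right _).mul_left _)
      have hpR : ∀ r ∈ R, r ≠ p := fun r hr h => hpN (by
        rw [← h]
        exact ((Finset.dvd_prod_of_mem (fun r => r) hr).mul_left _).mul_left _)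
      have hsp := split_iff E hb hc hφ h2 hbd
      have key : ∀ (hs : Split a b p) (hg : g ∈ HB E (insert 2 (bd a b))),
          (U (fun r : R => nq p r, th a b 1 p) ↔ U (fun r : R => ng g (E.s r), ng g E.t)) := by
        intro hs hg
        have e : (fun r : R => ng g (E.s r)) = fun r : R => nq p r := by
          funext r
          exact ng_s E hφ h2 r.2 (hR r r.2).1 (hpR r r.2)
        rw [e, ng_t E hc hb hφ hs hg]
      rw [hUC p hpR]
      constructor
      · rintro ⟨h3, h4⟩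
        exact ⟨hsp.1 h3, (key h3 (hsp.1 h3)).1 h4⟩
      · rintro ⟨hg, hu⟩
        exact ⟨hsp.2 hg, (key (hsp.2 hg) hg).2 hu⟩)
  rw [e1] at d
  push_cast at d
  exact d

/-- **the joint law**, proportions of the split primes -/
theorem law (U : (R → ZMod 2) × ZMod 2 → Prop) (C C' : ℕ → Prop)
    (hC : ∀ p : ℕ, (∀ r ∈ R, r ≠ p) →
      (C p ↔ Split a b p ∧ U (fun r : R => nq p r, th a b 1 p)))
    (hCp : ∀ p, C p → p.Prime) (hC' : ∀ p, C' p ↔ Split a b p) :
    Tendsto (fun X : ℕ => (((Icc 1 X).filter fun l => C l).card : ℝ) /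
      (((Icc 1 X).filter fun l => C' l).card : ℝ)) atTop
      (𝓝 ((Nat.card {u : (R → ZMod 2) × ZMod 2 // U u} : ℝ) / 2 ^ (R.card + 1))) := by
  obtain ⟨c, hc0, hM⟩ := law_M hb hc nb nc R hR
  have d1 := hM U C hC
  have d0 := hM (fun _ => True) C' (fun p _ => by rw [hC', and_true])
  have c0 : Nat.card {a : (R → ZMod 2) × ZMod 2 // True} = 2 ^ (R.card + 1) := by
    have e1 : Nat.card ((R → ZMod 2) × ZMod 2) = 2 ^ (R.card + 1) := by
      rw [Nat.card_prod, Nat.card_fun]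
      simp [pow_succ]
    rw [← e1]
    exact Nat.card_congr (Equiv.subtypeUnivEquiv fun _ => trivial)
  rw [c0] at d0
  have e0 : c * (((2 ^ (R.card + 1) : ℕ) : ℝ) / 2 ^ (R.card + 1)) = c := by
    push_cast
    field_simp
  rw [e0] at d0
  have h := ratio_lim hc0.ne' d1 d0
  have e : c * ((Nat.card {u : (R → ZMod 2) × ZMod 2 // U u} : ℝ) / 2 ^ (R.card + 1)) / c =
      (Nat.card {u : (R → ZMod 2) × ZMod 2 // U u} : ℝ) / 2 ^ (R.card + 1) := by
    rw [mul_comm, mul_div_assoc, div_self hc0.ne', mul_one]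
  rw [e] at h
  have f1 : ∀ X : ℕ, ((Icc 1 X).filter fun l => l.Prime ∧ C l) = (Icc 1 X).filter fun l => C l :=
    fun X => Finset.filter_congr fun l _ => ⟨fun h => h.2, fun h => ⟨hCp l h, h⟩⟩
  have f2 : ∀ X : ℕ, ((Icc 1 X).filter fun l => l.Prime ∧ C' l) = (Icc 1 X).filter fun l => C' l :=
    fun X => Finset.filter_congr fun l _ => ⟨fun h => h.2, fun h => ⟨((hC' l).1 h).1, h⟩⟩
  simp only [f1, f2] at h
  exact h

end

end Pool.Agent.U120.BR
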