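import Pool.Agent.U120.BR.Gc
import Pool.Agent.U120.MF.Dense

/-!
# The primes which extend a finite matching; dense sets; sequences with given symbols
-/

set_option autoImplicit false
set_option linter.unusedSectionVars false
set_option linter.style.haveILetI false

open scoped Classical

namespace Pool.Agent.U120.BR

open Finset Filter Topology
open Pool.Agent.W401.Cheb (M pr mem_pr)
open Pool.Agent.U115.GE
open Pool.Agent.Y698.SG (nq nq_zero)
open Pool.Agent.U707.SHA (mem_bad nq_self nq_symm)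
open Pool.Agent.U120.MF (card_split card_sub cn PU pc_large cn_mono pu_infinite)

variable {a b : ℤ} {T : Set ℕ}

lemma split_bd (hb : b ≠ 0) (hc : a ^ 2 - 4 * b ≠ 0) {r : ℕ} (h : Split a b r) :
    r.Prime ∧ r ≠ 2 ∧ r ∉ bd a b := by
  refine ⟨h.1, ?_, fun h' => ?_⟩
  · rintro rfl
    have := h.2.1
    omega
  · obtain ⟨h1, h2, h3⟩ := (mem_bad hb hc).1 h'
    exact split_nd h h3

/-- a positive limit of the means -/
theorem pu_of_M {A : Set ℕ} {δ : ℝ} (hδ0 : 0 < δ)
    (h : Tendsto (M fun p => if p ∈ A then (1 : ℝ) else 0) atTop (𝓝 δ)) : PU A := by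
  obtain ⟨X1, hX1⟩ := eventually_atTop.1 (h.eventually (lt_mem_nhds (half_lt_self hδ0)))
  obtain ⟨X2, hX2⟩ := pc_large 0
  refine ⟨δ / 2, by positivity, fun X₀ => ⟨max X₀ (max X1 X2), le_max_left _ _, ?_⟩⟩
  set X := max X₀ (max X1 X2) with hX
  have g1 := hX1 X ((le_max_left _ _).trans (le_max_right _ _))
  have g2 := hX2 X ((le_max_right _ _).trans (le_max_right _ _))
  unfold M at g1
  have g3 := Pool.Agent.U687.JT.sum_one (fun p => p ∈ A) X
  beta_reduce at g1 g3
  rw [g3, lt_div_iff₀ g2] at g1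
  refine g1.le.trans ?_
  unfold cn
  refine Nat.cast_le.2 (Finset.card_le_card fun l hl => ?_)
  rw [Finset.mem_filter] at hl ⊢
  exact ⟨hl.1, hl.2.2⟩

/-- no neighbour in `T` -/
def Fr (T : Set ℕ) (p : ℕ) : Prop := ∀ q ∈ T, nq p q = 0

/-- insertion of a new prime -/
theorem ma_insert {θ : ℕ → ZMod 2} (hT : ∀ p ∈ T, Split a b p) (hM : Ma nq θ T) {l : ℕ}
    (hl : Split a b l) (hlT : l ∉ T) : Ma nq θ (insert l T) ↔ θ l = 1 ∧
      (∀ q ∈ T, ∀ r ∈ T, nq l q ≠ 0 → nq l r ≠ 0 → q = r) ∧ ∀ q ∈ T, nq l q ≠ 0 → Fr T q := by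
  have hsy : Sy nq (insert l T) := sy_nq (a := a) (b := b) fun p hp => by
    rcases Set.mem_insert_iff.1 hp with rfl | hp
    · exact hl
    · exact hT p hp
  have hlm : l ∈ insert l T := Set.mem_insert _ _
  have hi : ∀ q ∈ T, q ∈ insert l T := fun q hq => Set.mem_insert_of_mem _ hq
  have ne1 : ∀ {x : ZMod 2}, x ≠ 0 ↔ x = 1 := fun {x} => by
    revert x
    decide
  constructor
  · intro h
    refine ⟨h.1 l hlm, fun q hq r hr h1 h2 => h.2 l hlm q (hi q hq) r (hi r hr) (ne1.1 h1) (ne1.1 h2),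
      fun q hq h1 r hr => ?_⟩
    by_contra h2
    have h3 := h.2 q (hi q hq) r (hi r hr) l hlm (ne1.1 h2)
      (by rw [hsy.2 q (hi q hq) l hlm]; exact ne1.1 h1)
    rw [h3] at hr
    exact hlT hr
  · rintro ⟨h1, h2, h3⟩
    refine ⟨fun p hp => ?_, fun p hp q hq r hr g1 g2 => ?_⟩
    · rcases Set.mem_insert_iff.1 hp with e | hp
      · rw [e]
        exact h1
      · exact hM.1 p hp
    · rcases Set.mem_insert_iff.1 hp with e | hp'
      · rw [e] at g1 g2
        have hq' : q ∈ T := (Set.mem_insert_iff.1 hq).resolve_left fun e' => by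
          rw [e', nq_self] at g1
          exact zero_ne_one g1
        have hr' : r ∈ T := (Set.mem_insert_iff.1 hr).resolve_left fun e' => by
          rw [e', nq_self] at g2
          exact zero_ne_one g2
        exact h2 q hq' r hr' (ne1.2 g1) (ne1.2 g2)
      · rcases Set.mem_insert_iff.1 hq with e1 | hq'
        · rcases Set.mem_insert_iff.1 hr with e2 | hr'
          · rw [e1, e2]
          · have h5 : nq l p ≠ 0 := by
              rw [hsy.2 l hlm p hp, ← e1]
              exact ne1.2 g1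
            exact absurd (h3 p hp' h5 r hr') (ne1.2 g2)
        · rcases Set.mem_insert_iff.1 hr with e2 | hr'
          · have h5 : nq l p ≠ 0 := by
              rw [hsy.2 l hlm p hp, ← e2]
              exact ne1.2 g2
            exact absurd (h3 p hp' h5 q hq') (ne1.2 g1)
          · exact hM.2 p hp' q hq' r hr' g1 g2

section
variable (hb : b ≠ 0) (hc : a ^ 2 - 4 * b ≠ 0) (nb : ¬ IsSquare b)
  (nc : ¬ IsSquare (a ^ 2 - 4 * b))

include hb hc nb nc

/-- the joint law, for sets -/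
theorem law_cn (R : Finset ℕ) (hR : ∀ r ∈ R, r.Prime ∧ r ≠ 2 ∧ r ∉ bd a b)
    (U : (R → ZMod 2) × ZMod 2 → Prop) (A A' : Set ℕ)
    (hC : ∀ p : ℕ, (∀ r ∈ R, r ≠ p) →
      (p ∈ A ↔ Split a b p ∧ U (fun r : R => nq p r, th a b 1 p)))
    (hCp : ∀ p, p ∈ A → p.Prime) (hC' : ∀ p, p ∈ A' ↔ Split a b p) :
    Tendsto (fun X : ℕ => (cn A X : ℝ) / (cn A' X : ℝ)) atTop
      (𝓝 ((Nat.card {u : (R → ZMod 2) × ZMod 2 // U u} : ℝ) / 2 ^ (R.card + 1))) :=
  law hb hc nb nc R hR U (fun p => p ∈ A) (fun p => p ∈ A') hC hCp hC'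

/-- **the primes which extend a finite matching** -/
theorem ext_law (T : Finset ℕ) (hT : ∀ p ∈ T, Split a b p) (hM : Ma nq (th a b 1) (T : Set ℕ)) :
    Tendsto (fun X : ℕ => (cn {l | Split a b l ∧ l ∉ T ∧
        Ma nq (th a b 1) (insert l (T : Set ℕ))} X : ℝ) / (cn {l | Split a b l} X : ℝ)) atTop
      (𝓝 ((((T.filter fun q => Fr (T : Set ℕ) q).card + 1 : ℕ) : ℝ) / 2 ^ (T.card + 1))) := by
  have h := law_cn hb hc nb nc T (fun r hr => split_bd hb hc (hT r hr))
    (fun x => x.2 = 1 ∧ (∀ i : T, ¬ True → x.1 i = 0) ∧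
      (∀ i : T, True → ∀ j : T, True → x.1 i ≠ 0 → x.1 j ≠ 0 → i = j) ∧
      ∀ i : T, True → x.1 i ≠ 0 → Fr (T : Set ℕ) i)
    {l | Split a b l ∧ l ∉ T ∧ Ma nq (th a b 1) (insert l (T : Set ℕ))}
    {l | Split a b l} (by
      intro p hpT
      have hpT' : p ∉ T := fun h => hpT p h rfl
      refine and_congr_right fun hs => ?_
      rw [ma_insert (a := a) (b := b) (fun q hq => hT q (Finset.mem_coe.1 hq)) hM hs
        (fun h => hpT' (Finset.mem_coe.1 h))]
      constructor
      · rintro ⟨-, h1, h2, h3⟩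
        exact ⟨h1, fun i hi => absurd trivial hi,
          fun i _ j _ g1 g2 => Subtype.ext (h2 i i.2 j j.2 g1 g2), fun i _ => h3 i i.2⟩
      · rintro ⟨h1, -, h2, h3⟩
        exact ⟨hpT', h1, fun q hq r hr g1 g2 =>
          congrArg Subtype.val (h2 ⟨q, hq⟩ trivial ⟨r, hr⟩ trivial g1 g2),
          fun q hq => h3 ⟨q, hq⟩ trivial⟩) (fun p hp => hp.1.1) (fun p => Iff.rfl)
  have h1 := card_split (ι := T) (fun i => True) (fun i => Fr (T : Set ℕ) i)
  have h2 : Nat.card {i : T // True ∧ Fr (T : Set ℕ) i} =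
      (T.filter fun q => Fr (T : Set ℕ) q).card := by
    rw [← card_sub T (fun q => Fr (T : Set ℕ) q)]
    exact Nat.card_congr (Equiv.subtypeEquivRight fun i => by rw [true_and])
  rw [h2] at h1
  rw [h1] at h
  exact h

/-- a positive proportion of the primes -/
theorem pu_law (R : Finset ℕ) (hR : ∀ r ∈ R, Split a b r) (u : ℕ → ZMod 2) (ε : ZMod 2) :
    PU {p | Split a b p ∧ th a b 1 p = ε ∧ ∀ r ∈ R, nq p r = u r ∧ r ≠ p} := by
  obtain ⟨c, hc0, hM⟩ := law_M hb hc nb nc R (fun r hr => split_bd hb hc (hR r hr))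
  have h := hM (fun x => x.2 = ε ∧ ∀ i : R, x.1 i = u i)
    (fun p => p ∈ {p | Split a b p ∧ th a b 1 p = ε ∧ ∀ r ∈ R, nq p r = u r ∧ r ≠ p}) (by
      intro p hpR
      refine and_congr_right fun _ => and_congr_right fun _ => ?_
      exact ⟨fun h i => (h i i.2).1, fun h r hr => ⟨h ⟨r, hr⟩, hpR r hr⟩⟩)
  have hne : Nonempty {x : (R → ZMod 2) × ZMod 2 // x.2 = ε ∧ ∀ i : R, x.1 i = u i} :=
    ⟨⟨(fun i => u i, ε), rfl, fun _ => rfl⟩⟩
  have h2 : 0 < Nat.card {x : (R → ZMod 2) × ZMod 2 // x.2 = ε ∧ ∀ i : R, x.1 i = u i} :=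
    Nat.card_pos
  have h3 : (0 : ℝ) < Nat.card {x : (R → ZMod 2) × ZMod 2 // x.2 = ε ∧ ∀ i : R, x.1 i = u i} := by
    exact_mod_cast h2
  set δ : ℝ := c * ((Nat.card {x : (R → ZMod 2) × ZMod 2 // x.2 = ε ∧ ∀ i : R, x.1 i = u i} : ℝ) /
    2 ^ (R.card + 1)) with hδ
  have hδ0 : 0 < δ := by positivity
  exact pu_of_M hδ0 h

/-- a new prime with given symbols -/
theorem next (R : Finset ℕ) (hR : ∀ r ∈ R, Split a b r) (u : ℕ → ZMod 2) (ε : ZMod 2) (N : ℕ) :
    ∃ p : ℕ, N < p ∧ Split a b p ∧ th a b 1 p = ε ∧ ∀ r ∈ R, nq p r = u r := by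
  have h := pu_infinite (pu_law hb hc nb nc R hR u ε)
  obtain ⟨p, hp, hN⟩ := h.exists_gt N
  exact ⟨p, hN, hp.1, hp.2.1, fun r hr => (hp.2.2 r hr).1⟩

/-- **sequences with given labels and symbols** -/
theorem exists_pat (C : ℕ → ℕ → ZMod 2) (e : ℕ → ZMod 2) : ∃ f : ℕ → ℕ, StrictMono f ∧
    (∀ n, Split a b (f n) ∧ th a b 1 (f n) = e n) ∧ ∀ m n, m < n → nq (f n) (f m) = C m n := by
  -- the good functions up to `n`
  let Good : ℕ → (ℕ → ℕ) → Prop := fun n g => (∀ i < n, Split a b (g i) ∧ th a b 1 (g i) = e i) ∧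
    ∀ i j, i < j → j < n → g i < g j ∧ nq (g j) (g i) = C i j
  have hstep : ∀ (n : ℕ) (g : ℕ → ℕ), Good n g → ∃ p : ℕ, Good (n + 1) (Function.update g n p) := by
    intro n g hg
    have hinj : ∀ i < n, ∀ j < n, g i = g j → i = j := by
      intro i hi j hj hij
      rcases lt_trichotomy i j with h | h | h
      · have := (hg.2 i j h hj).1
        omega
      · exact h
      · have := (hg.2 j i h hi).1
        omega
    -- the prescribed symbols
    have hu : ∀ r : ℕ, ∃ c : ZMod 2, ∀ i < n, g i = r → c = C i n := by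
      intro r
      by_cases h : ∃ i < n, g i = r
      · obtain ⟨i, hi, hr⟩ := h
        refine ⟨C i n, fun j hj hjr => ?_⟩
        rw [hinj i hi j hj (hr.trans hjr.symm)]
      · exact ⟨0, fun i hi hr => absurd ⟨i, hi, hr⟩ h⟩
    choose u hu using hu
    obtain ⟨p, h1, h2, h3, h4⟩ := next hb hc nb nc ((Finset.range n).image g) (fun r hr => by
      obtain ⟨i, hi, rfl⟩ := Finset.mem_image.1 hr
      exact (hg.1 i (Finset.mem_range.1 hi)).1) u (e n) (((Finset.range n).image g).sup id)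
    refine ⟨p, fun i hi => ?_, fun i j hij hj => ?_⟩
    · by_cases hin : i = n
      · rw [hin, Function.update_self]
        exact ⟨h2, h3⟩
      · rw [Function.update_of_ne hin]
        exact hg.1 i (by omega)
    · have hi : i ≠ n := by omega
      rw [Function.update_of_ne hi]
      by_cases hjn : j = n
      · rw [hjn, Function.update_self]
        have him : g i ∈ (Finset.range n).image g :=
          Finset.mem_image_of_mem g (Finset.mem_range.2 (by omega))
        refine ⟨lt_of_le_of_lt (Finset.le_sup (f := id) him) h1, ?_⟩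
        rw [h4 _ him, hu (g i) i (by omega) rfl]
      · rw [Function.update_of_ne hjn]
        exact hg.2 i j hij (by omega)
  have h0 : Good 0 fun _ => 0 := ⟨fun i hi => absurd hi (Nat.not_lt_zero i),
    fun i j _ hj => absurd hj (Nat.not_lt_zero j)⟩
  choose! pt hpt using hstep
  let G : ℕ → (ℕ → ℕ) := fun n => Nat.rec (fun _ => 0) (fun n g => Function.update g n (pt n g)) n
  have hG : ∀ n, Good n (G n) := by
    intro n
    induction n with
    | zero => exact h0
    | succ n ih => exact hpt n (G n) ih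
  have hst : ∀ n i, i < n → G n i = G (i + 1) i := by
    intro n
    induction n with
    | zero => intro i hi; exact absurd hi (Nat.not_lt_zero i)
    | succ n ih =>
      intro i hi
      by_cases hin : i = n
      · rw [hin]
      · have h1 : G (n + 1) i = G n i := Function.update_of_ne hin _ _
        rw [h1]
        exact ih i (by omega)
  refine ⟨fun n => G (n + 1) n, strictMono_nat_of_lt_succ fun n => ?_, fun n => ?_,
    fun m n hmn => ?_⟩
  · have h1 := ((hG (n + 2)).2 n (n + 1) (by omega) (by omega)).1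
    rw [hst (n + 2) n (by omega)] at h1
    exact h1
  · exact (hG (n + 1)).1 n (by omega)
  · have h1 := ((hG (n + 1)).2 m n hmn (by omega)).2
    rw [hst (n + 1) m (by omega)] at h1
    exact h1

end

end Pool.Agent.U120.BR
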