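import Pool.Agent.U120.BR.Gd

/-!
# Dense sets of split primes
-/

set_option autoImplicit false
set_option linter.unusedSectionVars false
set_option linter.style.haveILetI false

open scoped Classical

namespace Pool.Agent.U120.BR

open Finset Filter Topology
open Pool.Agent.U115.GE
open Pool.Agent.Y698.SG (nq nq_zero)
open Pool.Agent.U120.MF (cn PU pc_large cn_mono pu_infinite)

lemma pu_mono {A B : Set ℕ} (h : A ⊆ B) (hA : PU A) : PU B := by
  obtain ⟨δ, hδ, h1⟩ := hA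
  refine ⟨δ, hδ, fun X₀ => ?_⟩
  obtain ⟨X, hX, h2⟩ := h1 X₀
  exact ⟨X, hX, h2.trans (Nat.cast_le.2 (cn_mono h X))⟩

variable {a b : ℤ} (hb : b ≠ 0) (hc : a ^ 2 - 4 * b ≠ 0) (nb : ¬ IsSquare b)
  (nc : ¬ IsSquare (a ^ 2 - 4 * b))

include hb hc nb nc

/-- **the step** -/
theorem step {A : Set ℕ} (hA : ∀ p ∈ A, Split a b p) (h : PU A) :
    ∃ p ∈ A, PU {q | q ∈ A ∧ p < q ∧ nq p q = 0} := by
  by_contra hcon
  push Not at hcon
  have hinf := pu_infinite h
  obtain ⟨δ, hδ, hX⟩ := h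
  obtain ⟨m, hm⟩ : ∃ m : ℕ, (1 / 2 : ℝ) ^ m < δ / 4 :=
    exists_pow_lt_of_lt_one (by positivity) (by norm_num)
  obtain ⟨P, hPA, hPm⟩ := hinf.exists_subset_card_eq m
  have hP : ∀ r ∈ P, Split a b r := fun r hr => hA r (hPA (Finset.mem_coe.2 hr))
  obtain ⟨W, hW⟩ : ∃ W : Set ℕ, W = {l | Split a b l ∧ ∀ r ∈ P, nq l r ≠ 0 ∧ r ≠ l} := ⟨_, rfl⟩
  obtain ⟨W', hW'⟩ : ∃ W' : Set ℕ, W' = {l | Split a b l} := ⟨_, rfl⟩
  have h1 := law_cn hb hc nb nc P (fun r hr => split_bd hb hc (hP r hr)) (fun x => ∀ i : P, x.1 i ≠ 0)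
    W W' (by
      intro p hpP
      rw [hW]
      exact and_congr_right fun _ => ⟨fun h i => (h i i.2).1, fun h r hr => ⟨h ⟨r, hr⟩, hpP r hr⟩⟩)
    (fun p hp => by rw [hW] at hp; exact hp.1.1) (fun p => by rw [hW']; exact Iff.rfl)
  have hc2 : Nat.card {x : (P → ZMod 2) × ZMod 2 // ∀ i : P, x.1 i ≠ 0} = 2 := by
    have e : {x : (P → ZMod 2) × ZMod 2 // ∀ i : P, x.1 i ≠ 0} ≃ ZMod 2 :=
      { toFun := fun x => x.1.2
        invFun := fun t => ⟨(fun _ => 1, t), fun _ => one_ne_zero⟩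
        left_inv := by
          rintro ⟨⟨u, t⟩, hu⟩
          refine Subtype.ext (Prod.ext (funext fun i => ?_) rfl)
          exact ((z2 (u i)).resolve_left (hu i)).symm
        right_inv := fun _ => rfl }
    rw [Nat.card_congr e]
    simp
  rw [hc2, hPm] at h1
  have hlim : ((2 : ℕ) : ℝ) / 2 ^ (m + 1) < δ / 4 := by
    refine lt_of_eq_of_lt ?_ hm
    rw [pow_succ]
    push_cast
    field_simp
    rw [← mul_pow]
    norm_num
  obtain ⟨X1, hX1⟩ := eventually_atTop.1 (h1.eventually (gt_mem_nhds hlim))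
  -- the sets `A_p`
  have h2' : ∀ p : ℕ, ∃ X₀ : ℕ, p ∈ P → ∀ X : ℕ, X₀ ≤ X →
      (cn {q | q ∈ A ∧ p < q ∧ nq p q = 0} X : ℝ) <
        δ / (4 * (m + 1)) * (Nat.primeCounting X : ℝ) := by
    intro p
    by_cases hp : p ∈ P
    · have h3 := hcon p (hPA (Finset.mem_coe.2 hp))
      unfold PU at h3
      push Not at h3
      obtain ⟨X₀, h4⟩ := h3 (δ / (4 * (m + 1))) (by positivity)
      exact ⟨X₀, fun _ => h4⟩
    · exact ⟨0, fun h => absurd h hp⟩
  choose X2 hX2 using h2'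
  set M : ℕ := P.sup id with hM
  obtain ⟨X3, hX3⟩ := pc_large ((M : ℝ) / (δ / 2))
  obtain ⟨X, hXl, hXc⟩ := hX (max X1 (max (P.sup X2) X3))
  have g1 : X1 ≤ X := le_trans (le_max_left _ _) hXl
  have g2 : P.sup X2 ≤ X := le_trans (le_trans (le_max_left _ _) (le_max_right _ _)) hXl
  have g3 : X3 ≤ X := le_trans (le_trans (le_max_right _ _) (le_max_right _ _)) hXl
  have hsub : ((Icc 1 X).filter fun p => p ∈ A) ⊆
      ((Icc 1 X).filter fun l => l ∈ W) ∪ (Icc 1 M ∪ P.biUnion fun p =>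
          (Icc 1 X).filter fun q => q ∈ {q | q ∈ A ∧ p < q ∧ nq p q = 0}) := by
    intro q hq
    rw [Finset.mem_filter] at hq
    rw [Finset.mem_union, Finset.mem_union]
    by_cases hqM : q ≤ M
    · exact Or.inr (Or.inl (Finset.mem_Icc.2 ⟨(Finset.mem_Icc.1 hq.1).1, hqM⟩))
    · have hlt : ∀ r ∈ P, r < q := fun r hr =>
        lt_of_le_of_lt (Finset.le_sup (f := id) hr) (not_le.1 hqM)
      have hsy := sy_nq (T := A) hA
      by_cases hex : ∃ r ∈ P, nq r q = 0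
      · obtain ⟨r, hr, hs⟩ := hex
        exact Or.inr (Or.inr (Finset.mem_biUnion.2 ⟨r, hr, Finset.mem_filter.2
          ⟨hq.1, hq.2, hlt r hr, hs⟩⟩))
      · refine Or.inl (Finset.mem_filter.2 ⟨hq.1, ?_⟩)
        rw [hW]
        refine ⟨hA q hq.2, fun r hr => ⟨fun h3 => hex ⟨r, hr, ?_⟩, (hlt r hr).ne⟩⟩
        rw [hsy.2 r (hPA (Finset.mem_coe.2 hr)) q hq.2]
        exact h3
  have hcard := (Finset.card_le_card hsub).trans ((Finset.card_union_le _ _).trans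
    (Nat.add_le_add_left ((Finset.card_union_le _ _).trans
      (Nat.add_le_add_left Finset.card_biUnion_le _)) _))
  have hcardR : (cn A X : ℝ) ≤ (cn W X : ℝ) + ((M : ℝ) +
        ∑ p ∈ P, (cn {q | q ∈ A ∧ p < q ∧ nq p q = 0} X : ℝ)) := by
    have h4 : (Icc 1 M).card = M := by simp
    rw [h4] at hcard
    have h5 : cn A X ≤ cn W X + (M + ∑ p ∈ P, cn {q | q ∈ A ∧ p < q ∧ nq p q = 0} X) := by
      unfold cn
      convert hcard
      rfl
    exact_mod_cast h5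
  have hsum : ∑ p ∈ P, (cn {q | q ∈ A ∧ p < q ∧ nq p q = 0} X : ℝ) ≤
      δ / 4 * (Nat.primeCounting X : ℝ) := by
    have h4 : ∑ p ∈ P, (cn {q | q ∈ A ∧ p < q ∧ nq p q = 0} X : ℝ) ≤
        ∑ _p ∈ P, δ / (4 * (m + 1)) * (Nat.primeCounting X : ℝ) :=
      Finset.sum_le_sum fun p hp =>
        (hX2 p hp X (le_trans (Finset.le_sup (f := X2) hp) g2)).le
    refine h4.trans ?_
    rw [Finset.sum_const, hPm, nsmul_eq_mul]
    have h5 : (m : ℝ) * (δ / (4 * (m + 1))) ≤ δ / 4 := by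
      rw [← mul_div_assoc, div_le_div_iff₀ (by positivity) (by norm_num)]
      nlinarith
    calc (m : ℝ) * (δ / (4 * (m + 1)) * (Nat.primeCounting X : ℝ)) =
        ((m : ℝ) * (δ / (4 * (m + 1)))) * (Nat.primeCounting X : ℝ) := by ring
      _ ≤ δ / 4 * (Nat.primeCounting X : ℝ) :=
        mul_le_mul_of_nonneg_right h5 (Nat.cast_nonneg _)
  have hnum : (cn W X : ℝ) ≤ δ / 4 * (Nat.primeCounting X : ℝ) := by
    have h4 := hX1 X g1
    have hab : cn W X ≤ cn W' X := cn_mono (by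
      rw [hW, hW']
      exact fun l hl => hl.1) X
    have hb2 : cn W' X ≤ Nat.primeCounting X := by
      unfold cn
      rw [Nat.primeCounting, Nat.primeCounting', Nat.count_eq_card_filter_range]
      refine Finset.card_le_card fun p hp => ?_
      rw [Finset.mem_filter, Finset.mem_Icc, hW'] at hp
      rw [Finset.mem_filter, Finset.mem_range]
      exact ⟨by omega, hp.2.1⟩
    have hb3 : (cn W' X : ℝ) ≤ (Nat.primeCounting X : ℝ) := by exact_mod_cast hb2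
    rcases Nat.eq_zero_or_pos (cn W' X) with h0 | h0
    · have : cn W X = 0 := by omega
      rw [this]
      push_cast
      positivity
    · have h0' : (0 : ℝ) < cn W' X := by exact_mod_cast h0
      rw [div_lt_iff₀ h0'] at h4
      exact h4.le.trans (mul_le_mul_of_nonneg_left hb3 (by positivity))
  have hlast := hX3 X g3
  rw [div_lt_iff₀ (by positivity)] at hlast
  nlinarith

/-- **the independent set** -/
theorem dense {A : Set ℕ} (hA : ∀ p ∈ A, Split a b p) (h : PU A) :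
    ∃ T ⊆ A, T.Infinite ∧ ∀ p ∈ T, ∀ q ∈ T, nq p q = 0 := by
  have hstep : ∀ B : {B : Set ℕ // B ⊆ A ∧ PU B}, ∃ p ∈ B.1,
      PU {q | q ∈ B.1 ∧ p < q ∧ nq p q = 0} :=
    fun B => step hb hc nb nc (fun p hp => hA p (B.2.1 hp)) B.2.2
  choose pt hpt using hstep
  let nxt : {B : Set ℕ // B ⊆ A ∧ PU B} → {B : Set ℕ // B ⊆ A ∧ PU B} := fun B =>
    ⟨{q | q ∈ B.1 ∧ pt B < q ∧ nq (pt B) q = 0}, fun q hq => B.2.1 hq.1, (hpt B).2⟩
  let sq : ℕ → {B : Set ℕ // B ⊆ A ∧ PU B} := fun n => nxt^[n] ⟨A, subset_rfl, h⟩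
  have hsucc : ∀ n, sq (n + 1) = nxt (sq n) := fun n => Function.iterate_succ_apply' nxt n _
  have hmono : ∀ n k, (sq (n + k)).1 ⊆ (sq n).1 := by
    intro n k
    induction k with
    | zero => exact subset_rfl
    | succ k ih =>
      have e : sq (n + (k + 1)) = nxt (sq (n + k)) := hsucc (n + k)
      rw [e]
      exact fun q hq => ih hq.1
  have hrel : ∀ n m, n < m → pt (sq n) < pt (sq m) ∧ nq (pt (sq n)) (pt (sq m)) = 0 := by
    intro n m hnm
    obtain ⟨k, rfl⟩ : ∃ k, m = n + 1 + k := ⟨m - (n + 1), by omega⟩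
    have h1 : pt (sq (n + 1 + k)) ∈ (sq (n + 1)).1 := hmono (n + 1) k (hpt _).1
    rw [hsucc n] at h1
    exact h1.2
  have hmonoF : StrictMono fun n => pt (sq n) := fun n m hnm => (hrel n m hnm).1
  have hAm : ∀ n, pt (sq n) ∈ A := fun n => (sq n).2.1 (hpt _).1
  refine ⟨Set.range fun n => pt (sq n), ?_, Set.infinite_range_of_injective hmonoF.injective, ?_⟩
  · rintro _ ⟨n, rfl⟩
    exact hAm n
  · rintro _ ⟨n, rfl⟩ _ ⟨m, rfl⟩
    have hsy := sy_nq (T := A) hA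
    rcases lt_trichotomy n m with h | h | h
    · exact (hrel n m h).2
    · rw [h]
      exact hsy.1 _ (hAm m)
    · show nq (pt (sq n)) (pt (sq m)) = 0
      rw [hsy.2 _ (hAm n) _ (hAm m)]
      exact (hrel m n h).2

/-- dense sets contain infinite matchings -/
theorem dense_ma {A : Set ℕ} (hA : ∀ p ∈ A, Split a b p) {θ : ℕ → ZMod 2}
    (h : PU {p | p ∈ A ∧ θ p = 1}) : ∃ T ⊆ A, T.Infinite ∧ Ma nq θ T := by
  obtain ⟨T, h1, h2, h3⟩ := dense hb hc nb nc (A := {p | p ∈ A ∧ θ p = 1})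
    (fun p hp => hA p hp.1) h
  refine ⟨T, fun p hp => (h1 hp).1, h2, fun p hp => (h1 hp).2, fun p hp q hq r hr g1 => ?_⟩
  rw [h3 p hp q hq] at g1
  exact absurd g1 zero_ne_one

/-- infinite matchings exist -/
theorem exists_ma : ∃ T : Set ℕ, (∀ p ∈ T, Split a b p) ∧ T.Infinite ∧ Ma nq (th a b 1) T := by
  have h := pu_law hb hc nb nc ∅ (by simp) (fun _ => 0) 1
  obtain ⟨T, h1, h2, h3⟩ := dense_ma hb hc nb nc (A := {p | Split a b p}) (θ := th a b 1)
    (fun p hp => hp) (pu_mono (fun p hp => ⟨hp.1, hp.2.1⟩) h)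
  exact ⟨T, fun p hp => h1 hp, h2, h3⟩

end Pool.Agent.U120.BR
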