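import Pool.Agent.U120.BR.Ge

/-!
# The gap theorem is sharp
-/

set_option autoImplicit false
set_option linter.unusedSectionVars false

open scoped Classical

namespace Pool.Agent.U120.BR

open Finset
open Pool.Agent.U115.GE
open Pool.Agent.Y698.SG (nq)

variable {n : ℕ → ℕ → ZMod 2} {θ : ℕ → ZMod 2} {T : Set ℕ}

lemma sum_in {P J : Finset ℕ} (hJ : J ⊆ P) (x : ℕ) :
    ∑ y ∈ J, n x y = ∑ y ∈ P, if y ∈ J then n x y else 0 := by
  rw [← Finset.sum_filter]
  congr 1
  ext y
  rw [Finset.mem_filter]
  exact ⟨fun h => ⟨hJ h, h⟩, fun h => h.2⟩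

lemma sum_out {P J : Finset ℕ} (x : ℕ) :
    ∑ y ∈ P \ J, n x y = ∑ y ∈ P, if y ∈ J then 0 else n x y := by
  have h : P \ J = P.filter fun y => ¬ y ∈ J := by
    ext y
    rw [Finset.mem_filter, Finset.mem_sdiff]
  rw [h, Finset.sum_filter]
  refine Finset.sum_congr rfl fun y _ => ?_
  by_cases hy : y ∈ J
  · rw [if_pos hy, if_neg (not_not.2 hy)]
  · rw [if_neg hy, if_pos hy]

lemma sum_three {p q r : ℕ} (hpq : p ≠ q) (hpr : p ≠ r) (hqr : q ≠ r) (g : ℕ → ZMod 2) :
    ∑ y ∈ ({p, q, r} : Finset ℕ), g y = g p + (g q + g r) := by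
  rw [Finset.sum_insert (by simp [hpq, hpr]), Finset.sum_pair hqr]

/-- a path with three vertices -/
theorem path_two (hn : Sy n T) {p q r : ℕ} (hp : p ∈ T) (hq : q ∈ T) (hr : r ∈ T)
    (fp : θ p = 1) (fq : θ q = 1) (fr : θ r = 1) (hpq : n p q = 1) (hpr : n p r = 1)
    (hqr : n q r = 0) (hne : q ≠ r) : kq n θ {p, q, r} = 2 := by
  refine le_antisymm ?_ (triple_two hn hp hq hr fq fr hpq hpr hne)
  have n0 := hn.1
  have e1 : n q p = 1 := by rw [hn.2 q hq p hp, hpq]
  have e2 : n r p = 1 := by rw [hn.2 r hr p hp, hpr]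
  have e3 : n r q = 0 := by rw [hn.2 r hr q hq, hqr]
  have h1 : p ≠ q := by
    rintro rfl
    rw [n0 p hp] at hpq
    exact zero_ne_one hpq
  have h2 : p ≠ r := by
    rintro rfl
    rw [n0 p hp] at hpr
    exact zero_ne_one hpr
  have hsub : (({p, q, r} : Finset ℕ).powerset.filter fun J => KJ n θ {p, q, r} J) ⊆
      ({∅, {q, r}} : Finset (Finset ℕ)) := by
    intro J hJ
    rw [Finset.mem_filter, Finset.mem_powerset] at hJ
    obtain ⟨hJP, hK1, hK2⟩ := hJ
    have key : ∀ x ∈ ({p, q, r} : Finset ℕ), x ∉ J → (if p ∈ J then n x p else 0) +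
        ((if q ∈ J then n x q else 0) + (if r ∈ J then n x r else 0)) = 0 := by
      intro x hx hxJ
      have h3 := hK1 x (Finset.mem_sdiff.2 ⟨hx, hxJ⟩)
      rwa [sum_in hJP, sum_three h1 h2 hne] at h3
    have key2 : ∀ x ∈ J, θ x + ((if p ∈ J then 0 else n x p) +
        ((if q ∈ J then 0 else n x q) + (if r ∈ J then 0 else n x r))) = 0 := by
      intro x hx
      have h3 := hK2 x hx
      rwa [sum_out, sum_three h1 h2 hne] at h3
    have hpJ : p ∉ J := by
      intro hpJ
      by_cases hqJ : q ∈ J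
      · have h3 := key2 q hqJ
        rw [if_pos hpJ, if_pos hqJ, fq, hqr, ite_self, add_zero, add_zero, add_zero] at h3
        exact one_ne_zero h3
      · have h3 := key q (by simp) hqJ
        rw [if_pos hpJ, if_neg hqJ, e1, hqr, ite_self, add_zero, add_zero] at h3
        exact one_ne_zero h3
    have h3 := key p (by simp) hpJ
    rw [if_neg hpJ, hpq, hpr, zero_add] at h3
    rw [Finset.mem_insert, Finset.mem_singleton]
    by_cases hqJ : q ∈ J
    · right
      have hrJ : r ∈ J := by
        by_contra hrJ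
        rw [if_pos hqJ, if_neg hrJ, add_zero] at h3
        exact one_ne_zero h3
      ext x
      constructor
      · intro hx
        have h4 := hJP hx
        rcases Finset.mem_insert.1 h4 with rfl | h4
        · exact absurd hx hpJ
        · exact h4
      · intro hx
        rcases Finset.mem_insert.1 hx with rfl | hx
        · exact hqJ
        · rw [Finset.mem_singleton.1 hx]
          exact hrJ
    · left
      have hrJ : r ∉ J := by
        intro hrJ
        rw [if_neg hqJ, if_pos hrJ, zero_add] at h3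
        exact one_ne_zero h3
      rw [Finset.eq_empty_iff_forall_notMem]
      intro x hx
      have h4 := hJP hx
      rcases Finset.mem_insert.1 h4 with rfl | h4
      · exact hpJ hx
      · rcases Finset.mem_insert.1 h4 with rfl | h4
        · exact hqJ hx
        · rw [Finset.mem_singleton.1 h4] at hx
          exact hrJ hx
  unfold kq
  refine (Finset.card_le_card hsub).trans ?_
  exact (Finset.card_insert_le _ _).trans (by rw [Finset.card_singleton])

/-- sets with at most two elements and labels `1` -/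
theorem small_one (hn : Sy n T) {P : Finset ℕ} (hP : (P : Set ℕ) ⊆ T) (h1 : ∀ p ∈ P, θ p = 1)
    (h2 : P.card ≤ 2) : kq n θ P = 1 := by
  refine kq_ma (T := (P : Set ℕ)) (hn.mono hP) ⟨fun p hp => h1 p hp, fun p hp q hq r hr g1 g2 => ?_⟩
    subset_rfl
  by_contra hne
  have hpq : p ≠ q := by
    rintro rfl
    rw [hn.1 p (hP hp)] at g1
    exact zero_ne_one g1
  have hpr : p ≠ r := by
    rintro rfl
    rw [hn.1 p (hP hp)] at g2
    exact zero_ne_one g2
  have hsub : ({p, q, r} : Finset ℕ) ⊆ P := by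
    intro x hx
    rcases Finset.mem_insert.1 hx with rfl | hx
    · exact hp
    · rcases Finset.mem_insert.1 hx with rfl | hx
      · exact hq
      · rw [Finset.mem_singleton.1 hx]
        exact hr
  have h3 := Finset.card_le_card hsub
  rw [Finset.card_insert_of_notMem (by simp [hpq, hpr]), Finset.card_pair hne] at h3
  omega

/-- the pattern: disjoint paths with three vertices -/
def Pt (i j : ℕ) : ZMod 2 := if i % 3 = 0 ∧ (j = i + 1 ∨ j = i + 2) then 1 else 0

section
variable {f : ℕ → ℕ} (hf : StrictMono f) (hT : ∀ i, f i ∈ T) (hn : Sy n T) (hθ : ∀ i, θ (f i) = 1)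
  (hp : ∀ i j, i < j → n (f j) (f i) = Pt i j)

include hf hT hn hθ hp

lemma pt_sep {k i j : ℕ} (hi : i < 3 * k) (hj : 3 * k ≤ j) :
    n (f i) (f j) = 0 ∧ n (f j) (f i) = 0 := by
  have h1 : n (f j) (f i) = 0 := by
    rw [hp i j (by omega)]
    unfold Pt
    rw [if_neg]
    omega
  exact ⟨by rw [hn.2 _ (hT i) _ (hT j), h1], h1⟩

/-- one block -/
lemma block (k : ℕ) {B : Finset ℕ} (hB : B ⊆ Finset.Ico (3 * k) (3 * k + 3)) :
    kq n θ (B.image f) ≤ 2 ^ (B.card / 3) ∧ (B.card = 3 → kq n θ (B.image f) = 2) := by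
  have hcard : (B.image f).card = B.card := Finset.card_image_of_injective _ hf.injective
  have hBc : B.card ≤ 3 := by
    have := Finset.card_le_card hB
    rwa [Nat.card_Ico, Nat.add_sub_cancel_left] at this
  by_cases h : B.card ≤ 2
  · have h1 := small_one (θ := θ) hn (P := B.image f) (fun x hx => by
      obtain ⟨i, -, rfl⟩ := Finset.mem_image.1 (Finset.mem_coe.1 hx)
      exact hT i) (fun x hx => by
      obtain ⟨i, -, rfl⟩ := Finset.mem_image.1 hx
      exact hθ i) (by omega)
    rw [h1]
    exact ⟨Nat.one_le_two_pow, fun h2 => by omega⟩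
  · have hB3 : B.card = 3 := by omega
    have hBe : B = Finset.Ico (3 * k) (3 * k + 3) :=
      Finset.eq_of_subset_of_card_le hB (by rw [Nat.card_Ico]; omega)
    have hIm : B.image f = {f (3 * k), f (3 * k + 1), f (3 * k + 2)} := by
      rw [hBe]
      have e : Finset.Ico (3 * k) (3 * k + 3) = {3 * k, 3 * k + 1, 3 * k + 2} := by
        ext x
        simp only [Finset.mem_Ico, Finset.mem_insert, Finset.mem_singleton]
        omega
      rw [e, Finset.image_insert, Finset.image_insert, Finset.image_singleton]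
    have g1 : n (f (3 * k)) (f (3 * k + 1)) = 1 := by
      rw [hn.2 _ (hT _) _ (hT _), hp _ _ (by omega)]
      unfold Pt
      rw [if_pos]
      omega
    have g2 : n (f (3 * k)) (f (3 * k + 2)) = 1 := by
      rw [hn.2 _ (hT _) _ (hT _), hp _ _ (by omega)]
      unfold Pt
      rw [if_pos]
      omega
    have g3 : n (f (3 * k + 1)) (f (3 * k + 2)) = 0 := by
      rw [hn.2 _ (hT _) _ (hT _), hp _ _ (by omega)]
      unfold Pt
      rw [if_neg]
      omega
    have h2 := path_two (θ := θ) hn (hT _) (hT _) (hT _) (hθ _) (hθ _) (hθ _) g1 g2 g3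
      (hf.injective.ne (by omega))
    rw [hIm, h2, hB3]
    exact ⟨by norm_num, fun _ => rfl⟩

/-- the pieces -/
lemma split_block (V : Finset ℕ) (k : ℕ) :
    kq n θ ((V.filter fun i => i < 3 * (k + 1)).image f) =
      kq n θ ((V.filter fun i => i < 3 * k).image f) *
        kq n θ ((V.filter fun i => 3 * k ≤ i ∧ i < 3 * k + 3).image f) := by
  have e : (V.filter fun i => i < 3 * (k + 1)).image f =
      (V.filter fun i => i < 3 * k).image f ∪
        (V.filter fun i => 3 * k ≤ i ∧ i < 3 * k + 3).image f := by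
    rw [← Finset.image_union]
    congr 1
    ext i
    simp only [Finset.mem_union, Finset.mem_filter]
    constructor
    · rintro ⟨h1, h2⟩
      by_cases h3 : i < 3 * k
      · exact Or.inl ⟨h1, h3⟩
      · exact Or.inr ⟨h1, by omega, by omega⟩
    · rintro (⟨h1, h2⟩ | ⟨h1, h2, h3⟩)
      · exact ⟨h1, by omega⟩
      · exact ⟨h1, by omega⟩
  rw [e]
  refine kq_union ?_ ?_ ?_
  · rw [Finset.disjoint_left]
    intro x hx hy
    obtain ⟨i, hi, rfl⟩ := Finset.mem_image.1 hx
    obtain ⟨j, hj, hij⟩ := Finset.mem_image.1 hy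
    have h1 := (Finset.mem_filter.1 hi).2
    have h2 := (Finset.mem_filter.1 hj).2
    have h3 := hf.injective hij
    omega
  · intro x hx y hy
    obtain ⟨i, hi, rfl⟩ := Finset.mem_image.1 hx
    obtain ⟨j, hj, rfl⟩ := Finset.mem_image.1 hy
    exact (pt_sep hf hT hn hθ hp (Finset.mem_filter.1 hi).2 (Finset.mem_filter.1 hj).2.1).1
  · intro x hx y hy
    obtain ⟨i, hi, rfl⟩ := Finset.mem_image.1 hx
    obtain ⟨j, hj, rfl⟩ := Finset.mem_image.1 hy
    exact (pt_sep hf hT hn hθ hp (Finset.mem_filter.1 hj).2 (Finset.mem_filter.1 hi).2.1).2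

lemma upper (V : Finset ℕ) (k : ℕ) :
    kq n θ ((V.filter fun i => i < 3 * k).image f) ≤
      2 ^ ((V.filter fun i => i < 3 * k).card / 3) := by
  induction k with
  | zero =>
    have h : (V.filter fun i => i < 3 * 0) = ∅ := by
      rw [Finset.filter_eq_empty_iff]
      intro x _
      omega
    rw [h, Finset.image_empty, Finset.card_empty]
    have := kq_le (n := n) (θ := θ) ∅
    rwa [Finset.card_empty] at this
  | succ k ih =>
    rw [split_block hf hT hn hθ hp V k]
    have h1 := (block hf hT hn hθ hp k (B := V.filter fun i => 3 * k ≤ i ∧ i < 3 * k + 3) (by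
      intro i hi
      rw [Finset.mem_Ico]
      exact (Finset.mem_filter.1 hi).2)).1
    refine (Nat.mul_le_mul ih h1).trans ?_
    rw [← pow_add]
    refine Nat.pow_le_pow_right (by norm_num) ?_
    have h2 : (V.filter fun i => i < 3 * (k + 1)).card = (V.filter fun i => i < 3 * k).card +
        (V.filter fun i => 3 * k ≤ i ∧ i < 3 * k + 3).card := by
      rw [← Finset.card_union_of_disjoint]
      · congr 1
        ext i
        simp only [Finset.mem_union, Finset.mem_filter]
        constructor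
        · rintro ⟨h1, h2⟩
          by_cases h3 : i < 3 * k
          · exact Or.inl ⟨h1, h3⟩
          · exact Or.inr ⟨h1, by omega, by omega⟩
        · rintro (⟨h1, h2⟩ | ⟨h1, h2, h3⟩)
          · exact ⟨h1, by omega⟩
          · exact ⟨h1, by omega⟩
      · rw [Finset.disjoint_left]
        intro i h1 h2
        have h3 := (Finset.mem_filter.1 h1).2
        have h4 := (Finset.mem_filter.1 h2).2
        omega
    omega

lemma exact_pow (m : ℕ) : kq n θ ((Finset.range (3 * m)).image f) = 2 ^ m := by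
  induction m with
  | zero =>
    rw [Nat.mul_zero, Finset.range_zero, Finset.image_empty, pow_zero]
    have := kq_le (n := n) (θ := θ) ∅
    rw [Finset.card_empty, pow_zero] at this
    have := kq_pos (n := n) (θ := θ) ∅
    omega
  | succ m ih =>
    have e : Finset.range (3 * (m + 1)) = (Finset.range (3 * (m + 1))).filter
        fun i => i < 3 * (m + 1) := by
      rw [Finset.filter_true_of_mem]
      intro i hi
      exact Finset.mem_range.1 hi
    have e2 : ((Finset.range (3 * (m + 1))).filter fun i => i < 3 * m) = Finset.range (3 * m) := by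
      ext i
      rw [Finset.mem_filter, Finset.mem_range, Finset.mem_range]
      omega
    rw [e, split_block hf hT hn hθ hp, e2, ih, pow_succ]
    congr 1
    refine (block hf hT hn hθ hp m (by
      intro i hi
      rw [Finset.mem_Ico]
      exact (Finset.mem_filter.1 hi).2)).2 ?_
    have e3 : ((Finset.range (3 * (m + 1))).filter fun i => 3 * m ≤ i ∧ i < 3 * m + 3) =
        Finset.Ico (3 * m) (3 * m + 3) := by
      ext i
      rw [Finset.mem_filter, Finset.mem_range, Finset.mem_Ico]
      omega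
    rw [e3, Nat.card_Ico]
    omega

end

/-- **sharpness** -/
theorem sharp {a b : ℤ} (hb : b ≠ 0) (hc : a ^ 2 - 4 * b ≠ 0) (nb : ¬ IsSquare b)
    (nc : ¬ IsSquare (a ^ 2 - 4 * b)) : ∃ T : Set ℕ, (∀ p ∈ T, Split a b p ∧ th a b 1 p = 1) ∧
      (∀ U : Finset ℕ, (U : Set ℕ) ⊆ T → kq nq (th a b 1) U ≤ 2 ^ (U.card / 3)) ∧
      ∀ m : ℕ, ∃ U : Finset ℕ, (U : Set ℕ) ⊆ T ∧ U.card = 3 * m ∧ kq nq (th a b 1) U = 2 ^ m := by
  obtain ⟨f, hf, h1, h2⟩ := exists_pat hb hc nb nc Pt fun _ => 1
  have hT : ∀ i, f i ∈ Set.range f := fun i => ⟨i, rfl⟩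
  have hsy : Sy nq (Set.range f) := sy_nq (a := a) (b := b) (by
    rintro _ ⟨i, rfl⟩
    exact (h1 i).1)
  refine ⟨Set.range f, ?_, fun U hU => ?_, fun m => ⟨(Finset.range (3 * m)).image f, ?_, ?_, ?_⟩⟩
  · rintro _ ⟨i, rfl⟩
    exact h1 i
  · obtain ⟨V, rfl⟩ : ∃ V : Finset ℕ, U = V.image f := by
      refine ⟨U.preimage f hf.injective.injOn, ?_⟩
      rw [Finset.image_preimage, Finset.filter_true_of_mem]
      exact fun x hx => hU (Finset.mem_coe.2 hx)
    have h3 := upper hf hT hsy (fun i => (h1 i).2) h2 V (V.sup id + 1)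
    have e : (V.filter fun i => i < 3 * (V.sup id + 1)) = V := by
      rw [Finset.filter_true_of_mem]
      intro i hi
      have := Finset.le_sup (f := id) hi
      simp only [id] at this
      omega
    rw [e] at h3
    rwa [Finset.card_image_of_injective _ hf.injective]
  · intro x hx
    obtain ⟨i, -, rfl⟩ := Finset.mem_image.1 (Finset.mem_coe.1 hx)
    exact hT i
  · rw [Finset.card_image_of_injective _ hf.injective, Finset.card_range]
  · exact exact_pow hf hT hsy (fun i => (h1 i).2) h2 m

end Pool.Agent.U120.BR
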