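import Mathlib

/-!
# Graphs all of whose finite induced subgraphs have kernels of bounded size

`n p q` (in the field with two elements, symmetric, zero on the diagonal) are the edges of a graph on a set `T`
of natural numbers, `θ p` the labels of the vertices. For a finite set `P` let `kq P` be the number of the
`J ⊆ P` such that every vertex of `P \ J` has an even number of neighbours in `J`, and `θ p` plus the number of
the neighbours of `p` in `P \ J` is even for the vertices `p` of `J` (this is the number of the elements of the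
kernel of the matrix `θ + Laplacian`).

Theorem (`bdd_iff`). `kq` is bounded on the finite subsets of `T` if and only if `T` is the union of a finite
set `F` and a set of vertices with the label `1`, of degrees at most one, without neighbours in `F`.
-/

set_option autoImplicit false

open scoped Classical

namespace Pool.Agent.U120.BR

open Finset

/-- the conditions on `J` -/
def KJ (n : ℕ → ℕ → ZMod 2) (θ : ℕ → ZMod 2) (P J : Finset ℕ) : Prop :=
  (∀ p ∈ P \ J, ∑ q ∈ J, n p q = 0) ∧ ∀ p ∈ J, θ p + ∑ q ∈ P \ J, n p q = 0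

/-- the number of the elements of the kernel -/
noncomputable def kq (n : ℕ → ℕ → ZMod 2) (θ : ℕ → ZMod 2) (P : Finset ℕ) : ℕ :=
  (P.powerset.filter fun J => KJ n θ P J).card

/-- symmetry -/
def Sy (n : ℕ → ℕ → ZMod 2) (T : Set ℕ) : Prop :=
  (∀ p ∈ T, n p p = 0) ∧ ∀ p ∈ T, ∀ q ∈ T, n p q = n q p

/-- matchings -/
def Ma (n : ℕ → ℕ → ZMod 2) (θ : ℕ → ZMod 2) (T : Set ℕ) : Prop :=
  (∀ p ∈ T, θ p = 1) ∧ ∀ p ∈ T, ∀ q ∈ T, ∀ r ∈ T, n p q = 1 → n p r = 1 → q = r

/-- bounded kernels -/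
def Bd (n : ℕ → ℕ → ZMod 2) (θ : ℕ → ZMod 2) (T : Set ℕ) : Prop :=
  ∃ C : ℕ, ∀ P : Finset ℕ, (P : Set ℕ) ⊆ T → kq n θ P ≤ C

variable {n : ℕ → ℕ → ZMod 2} {θ : ℕ → ZMod 2} {T : Set ℕ}

lemma z2 (a : ZMod 2) : a = 0 ∨ a = 1 := by
  revert a
  decide

lemma Sy.mono {S : Set ℕ} (h : S ⊆ T) (hn : Sy n T) : Sy n S :=
  ⟨fun p hp => hn.1 p (h hp), fun p hp q hq => hn.2 p (h hp) q (h hq)⟩

lemma Ma.mono {S : Set ℕ} (h : S ⊆ T) (hn : Ma n θ T) : Ma n θ S :=
  ⟨fun p hp => hn.1 p (h hp), fun p hp q hq r hr => hn.2 p (h hp) q (h hq) r (h hr)⟩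

lemma kj_empty (P : Finset ℕ) : KJ n θ P ∅ :=
  ⟨fun p _ => Finset.sum_empty, fun p hp => absurd hp (Finset.notMem_empty p)⟩

lemma kq_pos (P : Finset ℕ) : 0 < kq n θ P :=
  Finset.card_pos.2 ⟨∅, Finset.mem_filter.2 ⟨Finset.empty_mem_powerset P, kj_empty P⟩⟩

lemma kq_le (P : Finset ℕ) : kq n θ P ≤ 2 ^ P.card := by
  unfold kq
  rw [← Finset.card_powerset]
  exact Finset.card_filter_le _ _

lemma kq_ge {P J : Finset ℕ} (hJ : J ⊆ P) (hne : J.Nonempty) (h : KJ n θ P J) : 2 ≤ kq n θ P := by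
  have h1 : ({∅, J} : Finset (Finset ℕ)) ⊆ P.powerset.filter fun J => KJ n θ P J := by
    intro I hI
    rcases Finset.mem_insert.1 hI with rfl | hI
    · exact Finset.mem_filter.2 ⟨Finset.empty_mem_powerset P, kj_empty P⟩
    · rw [Finset.mem_singleton.1 hI]
      exact Finset.mem_filter.2 ⟨Finset.mem_powerset.2 hJ, h⟩
  have h2 := Finset.card_le_card h1
  rwa [Finset.card_pair (Ne.symm hne.ne_empty)] at h2

/-- matchings have trivial kernels -/
theorem kq_ma (hn : Sy n T) (h : Ma n θ T) {P : Finset ℕ} (hP : (P : Set ℕ) ⊆ T) : kq n θ P = 1 := by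
  have h1 : (P.powerset.filter fun J => KJ n θ P J) = {∅} := by
    ext J
    rw [Finset.mem_filter, Finset.mem_powerset, Finset.mem_singleton]
    constructor
    · rintro ⟨hJP, h1, h2⟩
      by_contra hne
      obtain ⟨p, hp⟩ := Finset.nonempty_iff_ne_empty.2 hne
      have hpT : p ∈ T := hP (Finset.mem_coe.2 (hJP hp))
      have h3 := h2 p hp
      rw [h.1 p hpT] at h3
      obtain ⟨q, hq, hq1⟩ : ∃ q ∈ P \ J, n p q ≠ 0 := by
        by_contra hcon
        push Not at hcon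
        rw [Finset.sum_eq_zero hcon, add_zero] at h3
        exact one_ne_zero h3
      have hq1' : n p q = 1 := (z2 _).resolve_left hq1
      have hqT : q ∈ T := hP (Finset.mem_coe.2 (Finset.mem_sdiff.1 hq).1)
      have h4 := h1 q hq
      rw [Finset.sum_eq_single p] at h4
      · rw [hn.2 q hqT p hpT, hq1'] at h4
        exact one_ne_zero h4
      · intro r hr hrp
        rcases z2 (n q r) with h5 | h5
        · exact h5
        · exact absurd (h.2 q hqT r (hP (Finset.mem_coe.2 (hJP hr))) p hpT h5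
            (by rw [hn.2 q hqT p hpT, hq1'])) hrp
      · exact fun h => absurd hp h
    · rintro rfl
      exact ⟨Finset.empty_subset _, kj_empty P⟩
  unfold kq
  rw [h1, Finset.card_singleton]

/-- the conditions for a disjoint union without edges -/
lemma kj_union {A B I J : Finset ℕ} (hAB : Disjoint A B) (h : ∀ p ∈ A, ∀ q ∈ B, n p q = 0)
    (h' : ∀ p ∈ B, ∀ q ∈ A, n p q = 0) (hI : I ⊆ A) (hJ : J ⊆ B) :
    KJ n θ (A ∪ B) (I ∪ J) ↔ KJ n θ A I ∧ KJ n θ B J := by
  have hIJ : Disjoint I J := hAB.mono hI hJ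
  have hAJ : ∀ x ∈ A, x ∉ J := fun x hx hxJ => Finset.disjoint_left.1 hAB hx (hJ hxJ)
  have hBI : ∀ x ∈ B, x ∉ I := fun x hx hxI => Finset.disjoint_left.1 hAB (hI hxI) hx
  have hd : (A ∪ B) \ (I ∪ J) = (A \ I) ∪ (B \ J) := by
    ext x
    simp only [Finset.mem_sdiff, Finset.mem_union]
    constructor
    · rintro ⟨h1 | h1, h2⟩
      · exact Or.inl ⟨h1, fun h3 => h2 (Or.inl h3)⟩
      · exact Or.inr ⟨h1, fun h3 => h2 (Or.inr h3)⟩
    · rintro (⟨h1, h2⟩ | ⟨h1, h2⟩)
      · exact ⟨Or.inl h1, fun h3 => h3.elim h2 (hAJ x h1)⟩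
      · exact ⟨Or.inr h1, fun h3 => h3.elim (hBI x h1) h2⟩
  have hdd : Disjoint (A \ I) (B \ J) := hAB.mono Finset.sdiff_subset Finset.sdiff_subset
  unfold KJ
  rw [hd]
  have e1 : ∀ p, ∑ q ∈ I ∪ J, n p q = ∑ q ∈ I, n p q + ∑ q ∈ J, n p q := fun p =>
    Finset.sum_union hIJ
  have e2 : ∀ p, ∑ q ∈ (A \ I) ∪ (B \ J), n p q = ∑ q ∈ A \ I, n p q + ∑ q ∈ B \ J, n p q := fun p =>
    Finset.sum_union hdd
  simp only [e1, e2]
  have z1 : ∀ p ∈ A, ∑ q ∈ J, n p q = 0 := fun p hp =>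
    Finset.sum_eq_zero fun q hq => h p hp q (hJ hq)
  have z2' : ∀ p ∈ A, ∑ q ∈ B \ J, n p q = 0 := fun p hp =>
    Finset.sum_eq_zero fun q hq => h p hp q (Finset.mem_sdiff.1 hq).1
  have z3 : ∀ p ∈ B, ∑ q ∈ I, n p q = 0 := fun p hp =>
    Finset.sum_eq_zero fun q hq => h' p hp q (hI hq)
  have z4 : ∀ p ∈ B, ∑ q ∈ A \ I, n p q = 0 := fun p hp =>
    Finset.sum_eq_zero fun q hq => h' p hp q (Finset.mem_sdiff.1 hq).1
  constructor
  · rintro ⟨g1, g2⟩
    refine ⟨⟨fun p hp => ?_, fun p hp => ?_⟩, ⟨fun p hp => ?_, fun p hp => ?_⟩⟩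
    · have := g1 p (Finset.mem_union_left _ hp)
      rwa [z1 p (Finset.mem_sdiff.1 hp).1, add_zero] at this
    · have := g2 p (Finset.mem_union_left _ hp)
      rwa [z2' p (hI hp), add_zero] at this
    · have := g1 p (Finset.mem_union_right _ hp)
      rwa [z3 p (Finset.mem_sdiff.1 hp).1, zero_add] at this
    · have := g2 p (Finset.mem_union_right _ hp)
      rwa [z4 p (hJ hp), zero_add] at this
  · rintro ⟨⟨g1, g2⟩, ⟨g3, g4⟩⟩
    refine ⟨fun p hp => ?_, fun p hp => ?_⟩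
    · rcases Finset.mem_union.1 hp with hp | hp
      · rw [z1 p (Finset.mem_sdiff.1 hp).1, add_zero]
        exact g1 p hp
      · rw [z3 p (Finset.mem_sdiff.1 hp).1, zero_add]
        exact g3 p hp
    · rcases Finset.mem_union.1 hp with hp | hp
      · rw [z2' p (hI hp), add_zero]
        exact g2 p hp
      · rw [z4 p (hJ hp), zero_add]
        exact g4 p hp

/-- **products** -/
theorem kq_union {A B : Finset ℕ} (hAB : Disjoint A B) (h : ∀ p ∈ A, ∀ q ∈ B, n p q = 0)
    (h' : ∀ p ∈ B, ∀ q ∈ A, n p q = 0) : kq n θ (A ∪ B) = kq n θ A * kq n θ B := by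
  unfold kq
  rw [← Finset.card_product]
  refine Finset.card_nbij' (fun J => (J ∩ A, J ∩ B)) (fun x => x.1 ∪ x.2) ?_ ?_ ?_ ?_
  · intro J hJ
    have hJ' := Finset.mem_filter.1 (Finset.mem_coe.1 hJ)
    have hJs := Finset.mem_powerset.1 hJ'.1
    have e : J ∩ A ∪ J ∩ B = J := by
      rw [← Finset.inter_union_distrib_left]
      exact Finset.inter_eq_left.2 hJs
    have h1 := hJ'.2
    rw [← e, kj_union hAB h h' Finset.inter_subset_right Finset.inter_subset_right] at h1
    rw [Finset.mem_coe, Finset.mem_product]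
    exact ⟨Finset.mem_filter.2 ⟨Finset.mem_powerset.2 Finset.inter_subset_right, h1.1⟩,
      Finset.mem_filter.2 ⟨Finset.mem_powerset.2 Finset.inter_subset_right, h1.2⟩⟩
  · intro x hx
    obtain ⟨h1, h2⟩ := Finset.mem_product.1 (Finset.mem_coe.1 hx)
    obtain ⟨h3, h4⟩ := Finset.mem_filter.1 h1
    obtain ⟨h5, h6⟩ := Finset.mem_filter.1 h2
    rw [Finset.mem_powerset] at h3 h5
    rw [Finset.mem_coe, Finset.mem_filter, Finset.mem_powerset]
    exact ⟨Finset.union_subset_union h3 h5, (kj_union hAB h h' h3 h5).2 ⟨h4, h6⟩⟩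
  · intro J hJ
    have hJs := Finset.mem_powerset.1 (Finset.mem_filter.1 (Finset.mem_coe.1 hJ)).1
    show J ∩ A ∪ J ∩ B = J
    rw [← Finset.inter_union_distrib_left]
    exact Finset.inter_eq_left.2 hJs
  · intro x hx
    obtain ⟨h1, h2⟩ := Finset.mem_product.1 (Finset.mem_coe.1 hx)
    have h3 := Finset.mem_powerset.1 (Finset.mem_filter.1 h1).1
    have h5 := Finset.mem_powerset.1 (Finset.mem_filter.1 h2).1
    refine Prod.ext ?_ ?_
    · show (x.1 ∪ x.2) ∩ A = x.1
      ext y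
      simp only [Finset.mem_inter, Finset.mem_union]
      constructor
      · rintro ⟨g1 | g1, g2⟩
        · exact g1
        · exact absurd (h5 g1) (Finset.disjoint_left.1 hAB g2)
      · intro g
        exact ⟨Or.inl g, h3 g⟩
    · show (x.1 ∪ x.2) ∩ B = x.2
      ext y
      simp only [Finset.mem_inter, Finset.mem_union]
      constructor
      · rintro ⟨g1 | g1, g2⟩
        · exact absurd g2 (Finset.disjoint_left.1 hAB (h3 g1))
        · exact g1
      · intro g
        exact ⟨Or.inr g, h5 g⟩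

/-- many even sets in the kernel -/
lemma kq_evens {P S : Finset ℕ} {x : ℕ} (hx : x ∈ P) (hS : S ⊆ P) (hxS : x ∉ S)
    (h : ∀ J ⊆ insert x S, Even J.card → KJ n θ P J) : 2 ^ S.card ≤ kq n θ P := by
  unfold kq
  rw [← Finset.card_powerset]
  have hsub : insert x S ⊆ P := Finset.insert_subset hx hS
  refine Finset.card_le_card_of_injOn (fun J => if Even J.card then J else insert x J)
    (fun J hJ => ?_) ?_
  · have hJS : J ⊆ S := Finset.mem_powerset.1 (Finset.mem_coe.1 hJ)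
    have hxJ : x ∉ J := fun g => hxS (hJS g)
    rw [Finset.mem_coe, Finset.mem_filter, Finset.mem_powerset]
    by_cases he : Even J.card
    · simp only [if_pos he]
      have h1 : J ⊆ insert x S := hJS.trans (Finset.subset_insert _ _)
      exact ⟨h1.trans hsub, h J h1 he⟩
    · simp only [if_neg he]
      have h1 : insert x J ⊆ insert x S := Finset.insert_subset_insert _ hJS
      refine ⟨h1.trans hsub, h _ h1 ?_⟩
      rw [Finset.card_insert_of_notMem hxJ]
      exact (Nat.not_even_iff_odd.1 he).add_one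
  · intro J hJ J' hJ' he
    have hJS : J ⊆ S := Finset.mem_powerset.1 (Finset.mem_coe.1 hJ)
    have hJS' : J' ⊆ S := Finset.mem_powerset.1 (Finset.mem_coe.1 hJ')
    have hxJ : x ∉ J := fun g => hxS (hJS g)
    have hxJ' : x ∉ J' := fun g => hxS (hJS' g)
    simp only at he
    by_cases h1 : Even J.card <;> by_cases h2 : Even J'.card
    · rwa [if_pos h1, if_pos h2] at he
    · rw [if_pos h1, if_neg h2] at he
      exact absurd (by rw [he]; exact Finset.mem_insert_self _ _) hxJ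
    · rw [if_neg h1, if_pos h2] at he
      exact absurd (by rw [← he]; exact Finset.mem_insert_self _ _) hxJ'
    · rw [if_neg h1, if_neg h2] at he
      rw [← Finset.erase_insert hxJ, ← Finset.erase_insert hxJ', he]

lemma pair_sum {x y p : ℕ} (hxy : x ≠ y) : ∑ q ∈ ({x, y} : Finset ℕ), n p q = n p x + n p y :=
  Finset.sum_pair hxy

lemma sum_ones {J : Finset ℕ} {p : ℕ} (h : ∀ q ∈ J, n p q = 1) :
    ∑ q ∈ J, n p q = (J.card : ZMod 2) := by
  rw [Finset.sum_congr rfl h, Finset.sum_const, nsmul_eq_mul, mul_one]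

lemma even_cast {m : ℕ} (h : Even m) : (m : ZMod 2) = 0 :=
  (ZMod.natCast_eq_zero_iff_even).2 h

/-- independent sets with the label `0` -/
lemma indep_zero {P : Finset ℕ} (h0 : ∀ p ∈ P, θ p = 0) (h : ∀ p ∈ P, ∀ q ∈ P, p ≠ q → n p q = 0) :
    2 ^ P.card ≤ kq n θ P := by
  have h1 : (P.powerset.filter fun J => KJ n θ P J) = P.powerset := by
    refine Finset.filter_true_of_mem fun J hJ => ?_
    have hJP := Finset.mem_powerset.1 hJ
    refine ⟨fun p hp => ?_, fun p hp => ?_⟩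
    · obtain ⟨g1, g2⟩ := Finset.mem_sdiff.1 hp
      exact Finset.sum_eq_zero fun q hq => h p g1 q (hJP hq) fun e => g2 (by rw [e]; exact hq)
    · rw [h0 p (hJP hp), zero_add]
      refine Finset.sum_eq_zero fun q hq => ?_
      obtain ⟨g1, g2⟩ := Finset.mem_sdiff.1 hq
      exact h p (hJP hp) q g1 fun e => g2 (by rw [← e]; exact hp)
  unfold kq
  rw [h1, Finset.card_powerset]

/-- cliques: the label plus the number of the vertices is even -/
lemma clique_many {P : Finset ℕ} {t : ZMod 2} (h0 : ∀ p ∈ P, θ p = t)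
    (h : ∀ p ∈ P, ∀ q ∈ P, p ≠ q → n p q = 1) (hc : t + (P.card : ZMod 2) = 0) :
    2 ^ (P.card - 1) ≤ kq n θ P := by
  rcases P.eq_empty_or_nonempty with rfl | ⟨x, hx⟩
  · rw [Finset.card_empty, Nat.zero_sub, pow_zero]
    exact kq_pos ∅
  rw [← Finset.card_erase_of_mem hx]
  refine kq_evens hx (Finset.erase_subset _ _) (Finset.notMem_erase _ _) fun J hJ he => ?_
  rw [Finset.insert_erase hx] at hJ
  have hcard : ((P \ J).card : ZMod 2) = (P.card : ZMod 2) := by
    have h1 : (P \ J).card + J.card = P.card := Finset.card_sdiff_add_card_eq_card hJ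
    rw [← h1, Nat.cast_add, even_cast he, add_zero]
  refine ⟨fun p hp => ?_, fun p hp => ?_⟩
  · obtain ⟨h1, h2⟩ := Finset.mem_sdiff.1 hp
    rw [sum_ones fun q hq => h p h1 q (hJ hq) fun e => h2 (by rw [e]; exact hq), even_cast he]
  · rw [sum_ones fun q hq => h p (hJ hp) q (Finset.mem_sdiff.1 hq).1 fun e =>
      (Finset.mem_sdiff.1 hq).2 (by rw [← e]; exact hp), hcard, h0 p (hJ hp), hc]

/-- stars -/
lemma star_many {L : Finset ℕ} {c : ℕ} (hc : c ∉ L) (h0 : ∀ p ∈ L, θ p = 1)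
    (h : ∀ p ∈ L, ∀ q ∈ L, p ≠ q → n p q = 0) (h1 : ∀ p ∈ L, n c p = 1) (h2 : ∀ p ∈ L, n p c = 1) :
    2 ^ (L.card - 1) ≤ kq n θ (insert c L) := by
  rcases L.eq_empty_or_nonempty with rfl | ⟨x, hx⟩
  · rw [Finset.card_empty, Nat.zero_sub, pow_zero]
    exact kq_pos _
  rw [← Finset.card_erase_of_mem hx]
  refine kq_evens (Finset.mem_insert_of_mem hx) ((Finset.erase_subset _ _).trans
    (Finset.subset_insert _ _)) (Finset.notMem_erase _ _) fun J hJ he => ?_
  rw [Finset.insert_erase hx] at hJ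
  have hcJ : c ∉ J := fun g => hc (hJ g)
  refine ⟨fun p hp => ?_, fun p hp => ?_⟩
  · obtain ⟨g1, g2⟩ := Finset.mem_sdiff.1 hp
    rcases Finset.mem_insert.1 g1 with rfl | g1
    · rw [sum_ones fun q hq => h1 q (hJ hq), even_cast he]
    · exact Finset.sum_eq_zero fun q hq => h p g1 q (hJ hq) fun e => g2 (by rw [e]; exact hq)
  · have hpL : p ∈ L := hJ hp
    have h3 : ∑ q ∈ insert c L \ J, n p q = n p c := by
      refine Finset.sum_eq_single c (fun q hq hqc => ?_) fun h => absurd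
        (Finset.mem_sdiff.2 ⟨Finset.mem_insert_self _ _, hcJ⟩) h
      obtain ⟨g1, g2⟩ := Finset.mem_sdiff.1 hq
      exact h p hpL q (Finset.mem_of_mem_insert_of_ne g1 hqc) fun e => g2 (by rw [← e]; exact hp)
    rw [h3, h0 p hpL, h2 p hpL]
    decide

/-- two edges at one vertex -/
lemma triple_two (hn : Sy n T) {p q r : ℕ} (hp : p ∈ T) (hq : q ∈ T) (hr : r ∈ T)
    (fq : θ q = 1) (fr : θ r = 1) (hpq : n p q = 1) (hpr : n p r = 1) (hqr : q ≠ r) :
    2 ≤ kq n θ {p, q, r} := by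
  have hpq' : p ≠ q := by
    rintro rfl
    rw [hn.1 p hp] at hpq
    exact zero_ne_one hpq
  have hpr' : p ≠ r := by
    rintro rfl
    rw [hn.1 p hp] at hpr
    exact zero_ne_one hpr
  have hsd : ({p, q, r} : Finset ℕ) \ {q, r} = {p} := by
    ext x
    simp only [Finset.mem_sdiff, Finset.mem_insert, Finset.mem_singleton]
    constructor
    · rintro ⟨h1, h2⟩
      tauto
    · rintro rfl
      exact ⟨Or.inl rfl, not_or.2 ⟨hpq', hpr'⟩⟩
  refine kq_ge (J := {q, r}) (Finset.subset_insert _ _) ⟨q, by simp⟩ ⟨?_, ?_⟩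
  · rw [hsd]
    intro x hx
    rw [Finset.mem_singleton.1 hx, pair_sum hqr, hpq, hpr]
    decide
  · rw [hsd]
    intro x hx
    rw [Finset.sum_singleton]
    rcases Finset.mem_insert.1 hx with rfl | hx
    · rw [fq, hn.2 x hq p hp, hpq]
      decide
    · rw [Finset.mem_singleton.1 hx, fr, hn.2 r hr p hp, hpr]
      decide

/-- **the sets with at most three elements decide** -/
theorem ma_of_three (hn : Sy n T)
    (h : ∀ P : Finset ℕ, (P : Set ℕ) ⊆ T → P.card ≤ 3 → kq n θ P = 1) : Ma n θ T := by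
  have h0 : ∀ p ∈ T, θ p = 1 := by
    intro p hp
    rcases z2 (θ p) with h1 | h1
    · exfalso
      have h2 := kq_ge (n := n) (θ := θ) (P := {p}) (J := {p}) subset_rfl (Finset.singleton_nonempty p)
        ⟨by simp, by
          intro x hx
          rw [Finset.mem_singleton.1 hx, h1]
          simp⟩
      rw [h {p} (by simpa using hp) (by simp)] at h2
      omega
    · exact h1
  refine ⟨h0, fun p hp q hq r hr hpq hpr => ?_⟩
  by_contra hqr
  have h1 := triple_two (θ := θ) hn hp hq hr (h0 q hq) (h0 r hr) hpq hpr hqr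
  rw [h {p, q, r} (by
    intro x hx
    simp only [Finset.coe_insert, Finset.coe_singleton, Set.mem_insert_iff,
      Set.mem_singleton_iff] at hx
    rcases hx with rfl | rfl | rfl
    · exact hp
    · exact hq
    · exact hr) Finset.card_le_three] at h1
  omega

/-- all finite subsets and those with at most three elements -/
theorem kq_one_iff (hn : Sy n T) :
    ((∀ P : Finset ℕ, (P : Set ℕ) ⊆ T → kq n θ P = 1) ↔ Ma n θ T) ∧
    ((∀ P : Finset ℕ, (P : Set ℕ) ⊆ T → P.card ≤ 3 → kq n θ P = 1) ↔ Ma n θ T) :=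
  ⟨⟨fun h => ma_of_three hn fun P hP _ => h P hP, fun h _ hP => kq_ma hn h hP⟩,
    ⟨fun h => ma_of_three hn h, fun h _ hP _ => kq_ma hn h hP⟩⟩

/-- the structure of the sets with bounded kernels -/
def Fm (n : ℕ → ℕ → ZMod 2) (θ : ℕ → ZMod 2) (T : Set ℕ) (F : Finset ℕ) : Prop :=
  (F : Set ℕ) ⊆ T ∧ Ma n θ (T \ F) ∧ ∀ p ∈ F, ∀ q ∈ T \ (F : Set ℕ), n p q = 0

/-- **the kernel depends only on the finite part** -/
theorem kq_fm (hn : Sy n T) {F : Finset ℕ} (hF : Fm n θ T F) {P : Finset ℕ} (hP : (P : Set ℕ) ⊆ T) :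
    kq n θ P = kq n θ (P ∩ F) := by
  have e : P = (P ∩ F) ∪ (P \ F) := by
    rw [Finset.union_comm, Finset.sdiff_union_inter]
  have h2 : ∀ q ∈ P \ F, q ∈ T \ (F : Set ℕ) := fun q hq =>
    ⟨hP (Finset.mem_coe.2 (Finset.mem_sdiff.1 hq).1), fun h => (Finset.mem_sdiff.1 hq).2
      (Finset.mem_coe.1 h)⟩
  have h1 : kq n θ (P \ F) = 1 := kq_ma (hn.mono Set.diff_subset) hF.2.1 fun q hq =>
    h2 q (Finset.mem_coe.1 hq)
  conv_lhs => rw [e]
  rw [kq_union, h1, mul_one]
  · rw [Finset.disjoint_left]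
    intro x h3 h4
    exact (Finset.mem_sdiff.1 h4).2 (Finset.mem_inter.1 h3).2
  · intro p hp q hq
    exact hF.2.2 p (Finset.mem_inter.1 hp).2 q (h2 q hq)
  · intro p hp q hq
    have hqF := (Finset.mem_inter.1 hq).2
    rw [hn.2 p (h2 p hp).1 q (hF.1 (Finset.mem_coe.2 hqF))]
    exact hF.2.2 q hqF p (h2 p hp)

end Pool.Agent.U120.BR
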