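import Pool.Agent.U120.BR.Fd

/-!
# The main equivalences
-/

set_option autoImplicit false
set_option linter.unusedSectionVars false
set_option linter.style.haveILetI false

attribute [-instance] DivisionRing.toRatAlgebra

open scoped Classical

namespace Pool.Agent.U120.BR

open Finset
open Pool.Agent.U115.GE
open Pool.Agent.TH841.NF.D (rk Sha)
open Pool.Agent.Y698.SG (nq)

variable {a b : ℤ} {T : Set ℕ} (hb : b ≠ 0) (hc : a ^ 2 - 4 * b ≠ 0)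

section
include hb hc

theorem sD1 {P : Finset ℕ} (hP : ∀ p ∈ P, Split a b p) :
    sD a b (∏ p ∈ P, p) = kq nq (th a b 1) P * sel a b ∧
    sD' a b (∏ p ∈ P, p) = kq nq (th a b 1) P * sel (-2 * a) (a ^ 2 - 4 * b) := by
  have h := sD_kq hb hc (cos_one a b) hP
  rwa [mul_one] at h

theorem rs1 (nb : ¬ IsSquare b) (nc : ¬ IsSquare (a ^ 2 - 4 * b)) {P : Finset ℕ}
    (hP : ∀ p ∈ P, Split a b p) :
    Finite {x : Sha (twE a b (∏ p ∈ P, p)) // 2 • x = 0} ∧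
    kq nq (th a b 1) P ≤ rs a b (∏ p ∈ P, p) ∧
    4 * rs a b (∏ p ∈ P, p) ≤
      kq nq (th a b 1) P ^ 2 * (sel a b * sel (-2 * a) (a ^ 2 - 4 * b)) := by
  have h := rs_kq hb hc nb nc (cos_one a b) hP
  rwa [mul_one] at h

theorem sel_pos' : 0 < sel (-2 * a) (a ^ 2 - 4 * b) := sel_pos _ hc

end

/-- the exponent of `#Sel · #Sel' / 4` -/
noncomputable def ss (a b : ℤ) : ℕ := Nat.log 2 (sel a b * sel (-2 * a) (a ^ 2 - 4 * b)) - 2

theorem rk_le {S k r X : ℕ} (hS : 0 < S) (hX : 0 < X) (h : 4 * (2 ^ r * X) ≤ (2 ^ k) ^ 2 * S) :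
    r ≤ 2 * k + (Nat.log 2 S - 2) := by
  have h1 : S < 2 ^ (Nat.log 2 S + 1) := Nat.lt_pow_succ_log_self (by norm_num) S
  have h2 : 2 ^ (r + 2) < 2 ^ (2 * k + (Nat.log 2 S + 1)) := by
    calc 2 ^ (r + 2) = 4 * (2 ^ r * 1) := by rw [pow_add]; ring
      _ ≤ 4 * (2 ^ r * X) := by gcongr; exact hX
      _ ≤ (2 ^ k) ^ 2 * S := h
      _ < (2 ^ k) ^ 2 * 2 ^ (Nat.log 2 S + 1) := by gcongr
      _ = 2 ^ (2 * k + (Nat.log 2 S + 1)) := by rw [← pow_mul, mul_comm k 2, ← pow_add]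
  have h3 := (Nat.pow_lt_pow_iff_right (by norm_num : 1 < 2)).1 h2
  omega

section
variable (nb : ¬ IsSquare b) (nc : ¬ IsSquare (a ^ 2 - 4 * b)) (hT : ∀ p ∈ T, Split a b p)

include hb hc nb nc hT

/-- **bounded families** -/
theorem main_tfae : List.TFAE [
    ∃ C : ℕ, ∀ U : Finset ℕ, (U : Set ℕ) ⊆ T → rs a b (∏ p ∈ U, p) ≤ C,
    ∃ C : ℕ, ∀ U : Finset ℕ, (U : Set ℕ) ⊆ T → sD a b (∏ p ∈ U, p) ≤ C,
    ∃ m : ℕ, ∀ U : Finset ℕ, (U : Set ℕ) ⊆ T → U.card ≤ 3 * m → rs a b (∏ p ∈ U, p) < 2 ^ m,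
    ∃ m : ℕ, ∀ U : Finset ℕ, (U : Set ℕ) ⊆ T → U.card ≤ 3 * m →
      sD a b (∏ p ∈ U, p) < 2 ^ m * sel a b,
    ∃ F : Finset ℕ, Fm nq (th a b 1) T F] := by
  have hsy := sy_nq hT
  have hP : ∀ U : Finset ℕ, (U : Set ℕ) ⊆ T → ∀ p ∈ U, Split a b p :=
    fun U hU p hp => hT p (hU (mem_coe.2 hp))
  have hs := sel_pos a hb
  have hs' := sel_pos' hb hc
  tfae_have 5 → 1 := by
    rintro ⟨F, hF⟩
    refine ⟨(2 ^ F.card) ^ 2 * (sel a b * sel (-2 * a) (a ^ 2 - 4 * b)), fun U hU => ?_⟩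
    have h1 := (rs1 hb hc nb nc (hP U hU)).2.2
    have h2 := fm_le hsy hF hU
    have h3 : kq nq (th a b 1) U ^ 2 ≤ (2 ^ F.card) ^ 2 := Nat.pow_le_pow_left h2 2
    have h4 := Nat.mul_le_mul_right (sel a b * sel (-2 * a) (a ^ 2 - 4 * b)) h3
    omega
  tfae_have 5 → 2 := by
    rintro ⟨F, hF⟩
    refine ⟨2 ^ F.card * sel a b, fun U hU => ?_⟩
    rw [(sD1 hb hc (hP U hU)).1]
    exact Nat.mul_le_mul_right _ (fm_le hsy hF hU)
  tfae_have 1 → 3 := by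
    rintro ⟨C, hC⟩
    exact ⟨C, fun U hU _ => (hC U hU).trans_lt Nat.lt_two_pow_self⟩
  tfae_have 2 → 4 := by
    rintro ⟨C, hC⟩
    refine ⟨C, fun U hU _ => (hC U hU).trans_lt ?_⟩
    exact Nat.lt_two_pow_self.trans_le (Nat.le_mul_of_pos_right _ hs)
  tfae_have 3 → 5 := by
    rintro ⟨m, hm⟩
    refine (gap_iff hsy).1 ⟨m, fun U hU hc' => ?_⟩
    exact (rs1 hb hc nb nc (hP U hU)).2.1.trans_lt (hm U hU hc')
  tfae_have 4 → 5 := by
    rintro ⟨m, hm⟩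
    refine (gap_iff hsy).1 ⟨m, fun U hU hc' => ?_⟩
    have h := hm U hU hc'
    rw [(sD1 hb hc (hP U hU)).1] at h
    exact lt_of_mul_lt_mul_right h (Nat.zero_le _)
  tfae_finish

/-- the values for a bounded family -/
theorem main_values {F : Finset ℕ} (hF : Fm nq (th a b 1) T F) {U : Finset ℕ}
    (hU : (U : Set ℕ) ⊆ T) :
    sD a b (∏ p ∈ U, p) = sD a b (∏ p ∈ U ∩ F, p) ∧
    sD' a b (∏ p ∈ U, p) = sD' a b (∏ p ∈ U ∩ F, p) ∧
    rk (twE a b (∏ p ∈ U, p)) ≤ 2 * F.card + ss a b := by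
  have hsy := sy_nq hT
  have hP : ∀ p ∈ U, Split a b p := fun p hp => hT p (hU (mem_coe.2 hp))
  have hP' : ∀ p ∈ U ∩ F, Split a b p := fun p hp => hP p (Finset.mem_inter.1 hp).1
  have h1 := kq_fm hsy hF hU
  refine ⟨?_, ?_, ?_⟩
  · rw [(sD1 hb hc hP).1, (sD1 hb hc hP').1, h1]
  · rw [(sD1 hb hc hP).2, (sD1 hb hc hP').2, h1]
  · obtain ⟨hfin, -, h2⟩ := rs1 hb hc nb nc hP
    have hX : 0 < Nat.card {x : Sha (twE a b (∏ p ∈ U, p)) // 2 • x = 0} :=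
      Nat.card_pos_iff.2 ⟨⟨⟨0, smul_zero 2⟩⟩, hfin⟩
    refine rk_le (Nat.mul_pos (sel_pos a hb) (sel_pos' hb hc)) hX (h2.trans ?_)
    exact Nat.mul_le_mul_right _ (Nat.pow_le_pow_left (fm_le hsy hF hU) 2)

/-- **constant families** -/
theorem main_const :
    ((∀ U : Finset ℕ, (U : Set ℕ) ⊆ T → sD a b (∏ p ∈ U, p) = sel a b) ↔ Ma nq (th a b 1) T) ∧
    ((∀ U : Finset ℕ, (U : Set ℕ) ⊆ T → U.card ≤ 3 → sD a b (∏ p ∈ U, p) = sel a b) ↔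
      Ma nq (th a b 1) T) := by
  have hsy := sy_nq hT
  have hs := sel_pos a hb
  have key : ∀ U : Finset ℕ, (U : Set ℕ) ⊆ T →
      (sD a b (∏ p ∈ U, p) = sel a b ↔ kq nq (th a b 1) U = 1) := by
    intro U hU
    rw [(sD1 hb hc fun p hp => hT p (hU (mem_coe.2 hp))).1]
    constructor
    · intro h
      exact Nat.eq_of_mul_eq_mul_right hs (by rw [h, one_mul])
    · intro h
      rw [h, one_mul]
  have h := kq_one_iff (n := nq) (θ := th a b 1) hsy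
  refine ⟨Iff.trans (forall₂_congr key) h.1, Iff.trans (forall₂_congr fun U hU => ?_) h.2⟩
  exact forall_congr' fun _ => key U hU

/-- **trivial `2`-parts** -/
theorem main_trivial (h4 : sel a b * sel (-2 * a) (a ^ 2 - 4 * b) = 4) :
    ((∀ U : Finset ℕ, (U : Set ℕ) ⊆ T → Finite (twE a b (∏ p ∈ U, p)).toAffine.Point ∧
      ∀ (k : ℕ) (x : Sha (twE a b (∏ p ∈ U, p))), 2 ^ k • x = 0 → x = 0) ↔ Ma nq (th a b 1) T) ∧
    ((∀ U : Finset ℕ, (U : Set ℕ) ⊆ T → U.card ≤ 3 →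
      Finite (twE a b (∏ p ∈ U, p)).toAffine.Point ∧
      ∀ (k : ℕ) (x : Sha (twE a b (∏ p ∈ U, p))), 2 ^ k • x = 0 → x = 0) ↔
        Ma nq (th a b 1) T) := by
  have hsy := sy_nq hT
  have key : ∀ U : Finset ℕ, (U : Set ℕ) ⊆ T →
      ((Finite (twE a b (∏ p ∈ U, p)).toAffine.Point ∧
      ∀ (k : ℕ) (x : Sha (twE a b (∏ p ∈ U, p))), 2 ^ k • x = 0 → x = 0) ↔
        kq nq (th a b 1) U = 1) := by
    intro U hU
    have hP : ∀ p ∈ U, Split a b p := fun p hp => hT p (hU (mem_coe.2 hp))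
    have H := hg_of hb hc (cos_one a b) hP
    have h := H.iff Pool.Agent.U739.GE.t_GOOD Pool.Agent.U796.GE.t_BND nb nc h4
      (D := ∏ p ∈ U, p) (by rw [mul_one])
    rwa [kap_kq hP] at h
  have h := kq_one_iff (n := nq) (θ := th a b 1) hsy
  refine ⟨Iff.trans (forall₂_congr key) h.1, Iff.trans (forall₂_congr fun U hU => ?_) h.2⟩
  exact forall_congr' fun _ => key U hU

end

end Pool.Agent.U120.BR
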